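import Mathlib

set_option autoImplicit false

open MeasureTheory Set Filter Topology
open scoped InnerProductSpace

namespace Pool.Agent.MP_8048c5_an

section Core

variable {H : Type*} [NormedAddCommGroup H] [InnerProductSpace ℂ H]

/-- the submodule of vectors `g` for which `x ↦ ⟪g, u x⟫` is a.e.-measurable on `s`. -/
def Nm (u : ℝ → H) (s : Set ℝ) : Submodule ℂ H where
  carrier := {g | AEMeasurable (fun x => ⟪g, u x⟫_ℂ) (volume.restrict s)}
  add_mem' := by
    intro a b ha hb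
    simp only [mem_ofPred_eq, inner_add_left] at *
    exact ha.add hb
  zero_mem' := by simp
  smul_mem' := by
    intro c x hx
    simp only [mem_ofPred_eq, inner_smul_left] at *
    exact hx.const_mul _

lemma mem_Nm {u : ℝ → H} {s : Set ℝ} {g : H} :
    g ∈ Nm u s ↔ AEMeasurable (fun x => ⟪g, u x⟫_ℂ) (volume.restrict s) := Iff.rfl

lemma isClosed_Nm (u : ℝ → H) (s : Set ℝ) : IsClosed (Nm u s : Set H) := by
  apply isClosed_of_closure_subset
  intro g hg
  obtain ⟨v, hv, hlim⟩ := mem_closure_iff_seq_limit.1 hg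
  have : AEMeasurable (fun x => ⟪g, u x⟫_ℂ) (volume.restrict s) := by
    refine aemeasurable_of_tendsto_metrizable_ae atTop (f := fun n x => ⟪v n, u x⟫_ℂ)
      (fun n => hv n) (ae_of_all _ fun x => ?_)
    exact hlim.inner tendsto_const_nhds
  exact this

lemma Nm_mono (u : ℝ → H) {s t : Set ℝ} (h : s ⊆ t) : Nm u t ≤ Nm u s := by
  intro g hg
  exact AEMeasurable.mono_measure hg (Measure.restrict_mono_set _ h)

variable [CompleteSpace H]

instance instNmProj (u : ℝ → H) (s : Set ℝ) : (Nm u s).HasOrthogonalProjection := by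
  have : CompleteSpace (Nm u s) := (isClosed_Nm u s).completeSpace_coe
  infer_instance

/-- projection onto `Nm`. -/
noncomputable abbrev Pr (u : ℝ → H) (s : Set ℝ) : H →L[ℂ] H := (Nm u s).starProjection

variable (U : ℝ → H →ₗᵢ[ℂ] H) (hU0 : ∀ v, U 0 v = v) (hUadd : ∀ x y v, U (x + y) v = U x (U y v))
  (ξ : H)

include hU0 hUadd

lemma U_neg_cancel (x : ℝ) (v : H) : U x (U (-x) v) = v := by
  rw [← hUadd]; simp [hU0]

lemma U_neg_cancel' (x : ℝ) (v : H) : U (-x) (U x v) = v := by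
  rw [← hUadd]; simp [hU0]

lemma inner_U_left (x : ℝ) (v w : H) : ⟪U x v, w⟫_ℂ = ⟪v, U (-x) w⟫_ℂ := by
  conv_lhs => rw [← U_neg_cancel U hU0 hUadd x w]
  exact (U x).inner_map_map _ _

lemma inner_U_right (x : ℝ) (v w : H) : ⟪v, U x w⟫_ℂ = ⟪U (-x) v, w⟫_ℂ := by
  rw [inner_U_left U hU0 hUadd]; simp

lemma U_mem_Nm {t s : ℝ} {g : H} (hg : g ∈ Nm (fun x => U x ξ) (Iio t)) :
    U s g ∈ Nm (fun x => U x ξ) (Iio (t + s)) := by
  rw [mem_Nm] at *
  have h1 : (fun x => ⟪U s g, U x ξ⟫_ℂ) = (fun x => ⟪g, U x ξ⟫_ℂ) ∘ (fun x => x - s) := by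
    funext x
    simp only [Function.comp]
    rw [inner_U_left U hU0 hUadd, ← hUadd]
    congr 3
    ring
  rw [h1]
  have hmp : MeasurePreserving (fun x : ℝ => x - s) (volume.restrict (Iio (t + s)))
      (volume.restrict (Iio t)) := by
    have := (measurePreserving_sub_right (volume : Measure ℝ) s).restrict_preimage
      (s := Iio t) measurableSet_Iio
    have h2 : (fun x : ℝ => x - s) ⁻¹' Iio t = Iio (t + s) := by
      ext x; simp
    rwa [h2] at this
  exact hg.comp_quasiMeasurePreserving hmp.quasiMeasurePreserving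

lemma U_mem_Nm_univ {s : ℝ} {g : H} (hg : g ∈ Nm (fun x => U x ξ) univ) :
    U s g ∈ Nm (fun x => U x ξ) univ := by
  rw [mem_Nm, Measure.restrict_univ] at *
  have h1 : (fun x => ⟪U s g, U x ξ⟫_ℂ) = (fun x => ⟪g, U x ξ⟫_ℂ) ∘ (fun x => x - s) := by
    funext x
    simp only [Function.comp]
    rw [inner_U_left U hU0 hUadd, ← hUadd]
    congr 3
    ring
  rw [h1]
  exact hg.comp_quasiMeasurePreserving
    (measurePreserving_sub_right (volume : Measure ℝ) s).quasiMeasurePreserving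

lemma Pr_U (t s : ℝ) (v : H) :
    Pr (fun x => U x ξ) (Iio (t + s)) (U s v) = U s (Pr (fun x => U x ξ) (Iio t) v) := by
  apply Submodule.eq_starProjection_of_mem_of_inner_eq_zero
  · exact U_mem_Nm U hU0 hUadd ξ (Submodule.starProjection_apply_mem _ _)
  · intro w hw
    have hw' : U (-s) w ∈ Nm (fun x => U x ξ) (Iio t) := by
      have := U_mem_Nm U hU0 hUadd ξ (s := -s) hw
      simpa using this
    rw [← map_sub, inner_U_left U hU0 hUadd]
    exact Submodule.starProjection_inner_eq_zero _ _ hw'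

lemma Pr_U_univ (s : ℝ) (v : H) :
    Pr (fun x => U x ξ) univ (U s v) = U s (Pr (fun x => U x ξ) univ v) := by
  apply Submodule.eq_starProjection_of_mem_of_inner_eq_zero
  · exact U_mem_Nm_univ U hU0 hUadd ξ (Submodule.starProjection_apply_mem _ _)
  · intro w hw
    have hw' : U (-s) w ∈ Nm (fun x => U x ξ) univ := U_mem_Nm_univ U hU0 hUadd ξ hw
    rw [← map_sub, inner_U_left U hU0 hUadd]
    exact Submodule.starProjection_inner_eq_zero _ _ hw'

/-- difference of projections. -/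
noncomputable def Dp (u : ℝ → H) (t : ℝ) (v : H) : H := Pr u (Iio t) v - Pr u univ v

lemma Dp_U (t s : ℝ) (v : H) :
    Dp (fun x => U x ξ) (t + s) (U s v) = U s (Dp (fun x => U x ξ) t v) := by
  simp only [Dp, map_sub]
  rw [Pr_U U hU0 hUadd, Pr_U_univ U hU0 hUadd]

lemma aem_Dp (g : H) (t : ℝ) :
    AEMeasurable (fun x => ⟪g, U x (Dp (fun x => U x ξ) (t - x) ξ)⟫_ℂ)
      (volume.restrict (Iio t)) := by
  have h1 : ∀ x, ⟪g, U x (Dp (fun x => U x ξ) (t - x) ξ)⟫_ℂ
      = ⟪Dp (fun x => U x ξ) t g, U x ξ⟫_ℂ := by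
    intro x
    rw [← Dp_U U hU0 hUadd]
    have : t - x + x = t := by ring
    rw [this]
    simp only [Dp, inner_sub_left, inner_sub_right]
    rw [Submodule.inner_starProjection_left_eq_right, Submodule.inner_starProjection_left_eq_right]
  simp only [h1]
  have h2 : Dp (fun x => U x ξ) t g ∈ Nm (fun x => U x ξ) (Iio t) := by
    apply Submodule.sub_mem
    · exact Submodule.starProjection_apply_mem _ _
    · exact Nm_mono _ (subset_univ _) (Submodule.starProjection_apply_mem _ _)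
  exact h2

omit [CompleteSpace H] hU0 hUadd in
lemma proj_pythag {K L : Submodule ℂ H} [K.HasOrthogonalProjection] [L.HasOrthogonalProjection]
    (h : L ≤ K) (v : H) :
    ‖K.starProjection v - L.starProjection v‖ ^ 2
      = ‖K.starProjection v‖ ^ 2 - ‖L.starProjection v‖ ^ 2 := by
  set a := K.starProjection v
  set b := L.starProjection v
  have hb : b ∈ L := Submodule.starProjection_apply_mem _ _
  have h1 : ⟪v - a, b⟫_ℂ = 0 := Submodule.starProjection_inner_eq_zero _ _ (h hb)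
  have h2 : ⟪v - b, b⟫_ℂ = 0 := Submodule.starProjection_inner_eq_zero _ _ hb
  have h3 : ⟪a - b, b⟫_ℂ = 0 := by
    have : a - b = (v - b) - (v - a) := by abel
    rw [this, inner_sub_left, h1, h2, sub_zero]
  have h4 := norm_add_sq_eq_norm_sq_add_norm_sq_of_inner_eq_zero (𝕜 := ℂ) (a - b) b h3
  rw [sub_add_cancel] at h4
  nlinarith [h4]

lemma antitone_phi : Antitone (fun s : ℝ => ‖Pr (fun x => U x ξ) (Iio s) ξ‖ ^ 2) := by
  intro s t hst
  have := proj_pythag (Nm_mono (fun x => U x ξ) (Iio_subset_Iio hst)) ξ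
  have h2 := sq_nonneg ‖(Nm (fun x => U x ξ) (Iio s)).starProjection ξ
    - (Nm (fun x => U x ξ) (Iio t)).starProjection ξ‖
  simp only
  linarith

lemma aem_of_cts {s0 : ℝ} (hs0 : 0 < s0)
    (hc : ContinuousAt (fun s : ℝ => ‖Pr (fun x => U x ξ) (Iio s) ξ‖ ^ 2) s0) (g : H) :
    AEMeasurable (fun x => ⟪g, U x (Dp (fun x => U x ξ) s0 ξ)⟫_ℂ) volume := by
  -- for each `n` an approximating a.e.-measurable function
  have happ : ∀ n : ℕ, ∃ v : ℝ → ℂ, AEMeasurable v volume ∧
      ∀ x, ‖v x - ⟪g, U x (Dp (fun x => U x ξ) s0 ξ)⟫_ℂ‖ ≤ ‖g‖ * (1 / (n + 1)) := by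
    intro n
    have hn : (0 : ℝ) < 1 / (n + 1) := by positivity
    rw [Metric.continuousAt_iff] at hc
    obtain ⟨δ, hδ, hδ'⟩ := hc ((1 / (n + 1)) ^ 2) (by positivity)
    set d : ℝ := min (δ / 2) (s0 / 2) with hd
    have hdpos : 0 < d := by positivity
    have hd1 : d < δ := by
      have := min_le_left (δ / 2) (s0 / 2); linarith
    have hd2 : d < s0 := by
      have := min_le_right (δ / 2) (s0 / 2); linarith
    -- norm estimate
    have hnorm : ∀ s, |s - s0| < δ →
        ‖Dp (fun x => U x ξ) s ξ - Dp (fun x => U x ξ) s0 ξ‖ ≤ 1 / (n + 1) := by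
      intro s hs
      have h1 := hδ' (x := s) (by rwa [Real.dist_eq])
      rw [Real.dist_eq] at h1
      have h2 : Dp (fun x => U x ξ) s ξ - Dp (fun x => U x ξ) s0 ξ
          = Pr (fun x => U x ξ) (Iio s) ξ - Pr (fun x => U x ξ) (Iio s0) ξ := by
        simp only [Dp]; abel
      rw [h2]
      have h3 : ‖Pr (fun x => U x ξ) (Iio s) ξ - Pr (fun x => U x ξ) (Iio s0) ξ‖ ^ 2
          ≤ (1 / (n + 1)) ^ 2 := by
        rcases le_total s s0 with hle | hle
        · have h4 := proj_pythag (Nm_mono (fun x => U x ξ) (Iio_subset_Iio hle)) ξ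
          calc _ = ‖Pr (fun x => U x ξ) (Iio s) ξ‖ ^ 2 - ‖Pr (fun x => U x ξ) (Iio s0) ξ‖ ^ 2 := h4
            _ ≤ |‖Pr (fun x => U x ξ) (Iio s) ξ‖ ^ 2 - ‖Pr (fun x => U x ξ) (Iio s0) ξ‖ ^ 2| :=
                le_abs_self _
            _ ≤ _ := h1.le
        · have h4 := proj_pythag (Nm_mono (fun x => U x ξ) (Iio_subset_Iio hle)) ξ
          rw [norm_sub_rev]
          calc _ = ‖Pr (fun x => U x ξ) (Iio s0) ξ‖ ^ 2 - ‖Pr (fun x => U x ξ) (Iio s) ξ‖ ^ 2 := h4
            _ ≤ |‖Pr (fun x => U x ξ) (Iio s0) ξ‖ ^ 2 - ‖Pr (fun x => U x ξ) (Iio s) ξ‖ ^ 2| :=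
                le_abs_self _
            _ = |‖Pr (fun x => U x ξ) (Iio s) ξ‖ ^ 2 - ‖Pr (fun x => U x ξ) (Iio s0) ξ‖ ^ 2| :=
                abs_sub_comm _ _
            _ ≤ _ := h1.le
      exact (le_abs_self _).trans (abs_le_of_sq_le_sq h3 hn.le)
    -- the step function
    let T : ℝ → ℝ := fun x => d * (⌊x / d⌋ : ℝ) + s0
    refine ⟨fun x => ⟪g, U x (Dp (fun x => U x ξ) (T x - x) ξ)⟫_ℂ, ?_, ?_⟩
    · have hcover : (⋃ j : ℤ, Ico (d * j) (d * (j + 1))) = (univ : Set ℝ) := by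
        ext x
        simp only [mem_iUnion, mem_Ico, mem_univ, iff_true]
        refine ⟨⌊x / d⌋, ?_, ?_⟩
        · have := Int.floor_le (x / d)
          rw [le_div_iff₀ hdpos] at this
          linarith
        · have := Int.lt_floor_add_one (x / d)
          rw [div_lt_iff₀ hdpos] at this
          linarith
      rw [← Measure.restrict_univ (μ := (volume : Measure ℝ)), ← hcover, aemeasurable_iUnion_iff]
      intro j
      have hsub : Ico (d * j) (d * (j + 1)) ⊆ Iio (d * j + s0) := by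
        intro x hx
        simp only [mem_Ico, mem_Iio] at *
        nlinarith [hx.2]
      have h1 := (aem_Dp U hU0 hUadd ξ g (d * j + s0)).mono_measure
        (Measure.restrict_mono_set volume hsub)
      refine h1.congr ?_
      refine (ae_restrict_iff' measurableSet_Ico).2 (ae_of_all _ fun x hx => ?_)
      have hfl : ⌊x / d⌋ = j := by
        rw [Int.floor_eq_iff]
        constructor
        · rw [le_div_iff₀ hdpos]; linarith [hx.1]
        · rw [div_lt_iff₀ hdpos]; linarith [hx.2]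
      simp only [T, hfl]
    · intro x
      have hT1 : |T x - x - s0| < δ := by
        have h1 := Int.floor_le (x / d)
        have h2 := Int.lt_floor_add_one (x / d)
        rw [le_div_iff₀ hdpos] at h1
        rw [div_lt_iff₀ hdpos] at h2
        simp only [T]
        rw [abs_lt]
        constructor <;> nlinarith
      rw [← inner_sub_right, ← map_sub]
      calc ‖⟪g, U x (Dp (fun x => U x ξ) (T x - x) ξ - Dp (fun x => U x ξ) s0 ξ)⟫_ℂ‖
          ≤ ‖g‖ * ‖U x (Dp (fun x => U x ξ) (T x - x) ξ - Dp (fun x => U x ξ) s0 ξ)‖ :=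
            norm_inner_le_norm _ _
        _ = ‖g‖ * ‖Dp (fun x => U x ξ) (T x - x) ξ - Dp (fun x => U x ξ) s0 ξ‖ := by
            rw [LinearIsometry.norm_map]
        _ ≤ _ := mul_le_mul_of_nonneg_left (hnorm _ hT1) (norm_nonneg _)
  choose v hv hv' using happ
  refine aemeasurable_of_tendsto_metrizable_ae atTop (f := v) hv (ae_of_all _ fun x => ?_)
  rw [tendsto_iff_norm_sub_tendsto_zero]
  refine squeeze_zero (fun _ => norm_nonneg _) (fun n => hv' n x) ?_
  have := tendsto_one_div_add_atTop_nhds_zero_nat (𝕜 := ℝ)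
  simpa using this.const_mul ‖g‖

lemma Dp_eq_zero_of_cts {s0 : ℝ} (hs0 : 0 < s0)
    (hc : ContinuousAt (fun s : ℝ => ‖Pr (fun x => U x ξ) (Iio s) ξ‖ ^ 2) s0) :
    Dp (fun x => U x ξ) s0 ξ = 0 := by
  set ζ := Dp (fun x => U x ξ) s0 ξ with hζ
  have h1 : AEMeasurable (fun x => ⟪ξ, U x ζ⟫_ℂ) volume := aem_of_cts U hU0 hUadd ξ hs0 hc ξ
  have h2 : ζ ∈ Nm (fun x => U x ξ) univ := by
    rw [mem_Nm, Measure.restrict_univ]
    have h3 : (fun x => ⟪ζ, U x ξ⟫_ℂ) = fun x => starRingEnd ℂ (⟪ξ, U (-x) ζ⟫_ℂ) := by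
      funext x
      rw [inner_conj_symm, inner_U_right U hU0 hUadd]
    rw [h3]
    have h4 : AEMeasurable ((fun x => ⟪ξ, U x ζ⟫_ℂ) ∘ (fun x : ℝ => -x)) volume :=
      h1.comp_quasiMeasurePreserving
        (Measure.measurePreserving_neg (volume : Measure ℝ)).quasiMeasurePreserving
    exact (Complex.continuous_conj.measurable).comp_aemeasurable h4
  have h5 : Pr (fun x => U x ξ) univ ζ = 0 := by
    simp only [hζ, Dp, map_sub]
    have h6 : Pr (fun x => U x ξ) univ (Pr (fun x => U x ξ) (Iio s0) ξ)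
        = Pr (fun x => U x ξ) univ ξ := by
      have := Submodule.starProjection_comp_starProjection_of_le
        (Nm_mono (fun x => U x ξ) (subset_univ (Iio s0)))
      exact congrArg (fun T => T ξ) this
    have h7 : Pr (fun x => U x ξ) univ (Pr (fun x => U x ξ) univ ξ)
        = Pr (fun x => U x ξ) univ ξ :=
      Submodule.starProjection_eq_self_iff.2 (Submodule.starProjection_apply_mem _ _)
    rw [h6, h7, sub_self]
  have h8 : Pr (fun x => U x ξ) univ ζ = ζ := Submodule.starProjection_eq_self_iff.2 h2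
  rw [← h8, h5]

lemma Dp_eq_zero {s : ℝ} (hs : 0 < s) : Dp (fun x => U x ξ) s ξ = 0 := by
  have hcount := (antitone_phi U hU0 hUadd ξ).countable_not_continuousAt
  have hdense := hcount.dense_compl ℝ
  obtain ⟨s0, hs0, hs0'⟩ := hdense.exists_between hs
  simp only [mem_compl_iff, mem_ofPred_eq, not_not] at hs0
  have h0 := Dp_eq_zero_of_cts U hU0 hUadd ξ hs0'.1 hs0
  have e1 := proj_pythag (Nm_mono (fun x => U x ξ) (subset_univ (Iio s))) ξ
  have e2 := proj_pythag (Nm_mono (fun x => U x ξ) (subset_univ (Iio s0))) ξ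
  have e3 := antitone_phi U hU0 hUadd ξ hs0'.2.le
  simp only at e3
  simp only [Dp] at h0 ⊢
  rw [h0] at e2
  simp only [norm_zero] at e2
  have e4 : ‖Pr (fun x => U x ξ) (Iio s) ξ - Pr (fun x => U x ξ) univ ξ‖ ^ 2 ≤ 0 := by
    have : ‖Pr (fun x => U x ξ) (Iio s) ξ - Pr (fun x => U x ξ) univ ξ‖ ^ 2
      = ‖Pr (fun x => U x ξ) (Iio s) ξ‖ ^ 2 - ‖Pr (fun x => U x ξ) univ ξ‖ ^ 2 := e1
    rw [this]
    linarith
  have e5 : ‖Pr (fun x => U x ξ) (Iio s) ξ - Pr (fun x => U x ξ) univ ξ‖ = 0 := by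
    have := sq_nonneg ‖Pr (fun x => U x ξ) (Iio s) ξ - Pr (fun x => U x ξ) univ ξ‖
    exact pow_eq_zero_iff (two_ne_zero) |>.1 (le_antisymm e4 this)
  exact norm_eq_zero.1 e5

/-- One-sided measurable extension in a unitary representation. -/
theorem core (η : H) (b : ℝ)
    (hη : AEMeasurable (fun x => ⟪η, U x ξ⟫_ℂ) (volume.restrict (Iio b))) :
    ∃ η' : H, (∀ x < b, ⟪η', U x ξ⟫_ℂ = ⟪η, U x ξ⟫_ℂ) ∧
      AEMeasurable (fun x => ⟪η', U x ξ⟫_ℂ) volume := by
  refine ⟨Pr (fun x => U x ξ) univ η, ?_, ?_⟩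
  · intro x hx
    have hw0 : η ∈ Nm (fun x => U x ξ) (Iio b) := hη
    set w := U (-x) (η - Pr (fun x => U x ξ) univ η) with hw
    have hwmem : w ∈ Nm (fun x => U x ξ) (Iio (b + -x)) := by
      apply U_mem_Nm U hU0 hUadd
      apply Submodule.sub_mem _ hw0
      exact Nm_mono _ (subset_univ _) (Submodule.starProjection_apply_mem _ _)
    have hPw : Pr (fun x => U x ξ) univ w = 0 := by
      rw [hw, Pr_U_univ U hU0 hUadd, map_sub]
      have h7 : Pr (fun x => U x ξ) univ (Pr (fun x => U x ξ) univ η)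
          = Pr (fun x => U x ξ) univ η :=
        Submodule.starProjection_eq_self_iff.2 (Submodule.starProjection_apply_mem _ _)
      rw [h7, sub_self, map_zero]
    have hD := Dp_eq_zero U hU0 hUadd ξ (s := b + -x) (by linarith)
    have hcalc : ⟪w, ξ⟫_ℂ = 0 := by
      have e1 : Pr (fun x => U x ξ) (Iio (b + -x)) w = w :=
        Submodule.starProjection_eq_self_iff.2 hwmem
      calc ⟪w, ξ⟫_ℂ = ⟪Pr (fun x => U x ξ) (Iio (b + -x)) w, ξ⟫_ℂ := by rw [e1]
        _ = ⟪w, Pr (fun x => U x ξ) (Iio (b + -x)) ξ⟫_ℂ :=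
            Submodule.inner_starProjection_left_eq_right _ _ _
        _ = ⟪w, Pr (fun x => U x ξ) univ ξ⟫_ℂ := by
            rw [sub_eq_zero.1 hD]
        _ = ⟪Pr (fun x => U x ξ) univ w, ξ⟫_ℂ :=
            (Submodule.inner_starProjection_left_eq_right _ _ _).symm
        _ = 0 := by rw [hPw, inner_zero_left]
    have : ⟪η - Pr (fun x => U x ξ) univ η, U x ξ⟫_ℂ = 0 := by
      rw [inner_U_right U hU0 hUadd]; exact hcalc
    rw [inner_sub_left, sub_eq_zero] at this
    exact this.symm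
  · have : Pr (fun x => U x ξ) univ η ∈ Nm (fun x => U x ξ) univ :=
      Submodule.starProjection_apply_mem _ _
    rw [mem_Nm, Measure.restrict_univ] at this
    exact this

end Core

end Pool.Agent.MP_8048c5_an
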