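import Mathlib
import Pool.Agent.MP_8048c5_an.Core

set_option autoImplicit false

open MeasureTheory Set Filter Topology
open scoped InnerProductSpace BoundedContinuousFunction

namespace Pool.Agent.MP_8048c5_an

/-- the character `t ↦ exp (i x t)` as a bounded continuous function. -/
noncomputable def ex (x : ℝ) : ℝ →ᵇ ℂ :=
  BoundedContinuousFunction.ofNormedAddCommGroup
    (fun t : ℝ => Complex.exp (Complex.I * (x : ℂ) * (t : ℂ))) (by fun_prop) 1 (by
      intro t
      have : Complex.I * (x : ℂ) * (t : ℂ) = ((x * t : ℝ) : ℂ) * Complex.I := by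
        push_cast; ring
      rw [this, Complex.norm_exp_ofReal_mul_I])

lemma ex_apply (x t : ℝ) : ex x t = Complex.exp (Complex.I * (x : ℂ) * (t : ℂ)) := rfl

lemma norm_ex_apply (x t : ℝ) : ‖ex x t‖ = 1 := by
  rw [ex_apply]
  have : Complex.I * (x : ℂ) * (t : ℂ) = ((x * t : ℝ) : ℂ) * Complex.I := by
    push_cast; ring
  rw [this, Complex.norm_exp_ofReal_mul_I]

lemma ex_add (x y : ℝ) : ex (x + y) = ex x * ex y := by
  ext t
  simp only [BoundedContinuousFunction.coe_mul, Pi.mul_apply, ex_apply, ← Complex.exp_add]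
  congr 1
  push_cast
  ring

lemma ex_zero : ex 0 = 1 := by
  ext t
  simp [ex_apply]

/-- A positive functional dominating a given functional. -/
lemma exists_pos (Φ : StrongDual ℂ (ℝ →ᵇ ℂ)) :
    ∃ Ψ : StrongDual ℝ (ℝ →ᵇ ℂ), (∀ a : ℝ →ᵇ ℂ, (∀ t, (a t).re ≤ 0) → Ψ a ≤ 0) ∧
      ∀ a b : ℝ →ᵇ ℂ, (∀ t, ‖b t‖ ≤ (a t).re) → (Φ b).re ≤ Ψ a := by
  set C : ℝ := ‖Φ‖ + 1 with hC
  have hCpos : 0 < C := by positivity
  let V : Set (ℝ →ᵇ ℂ) := {a | ∃ b : ℝ →ᵇ ℂ, ∃ δ > 0, ∀ t, C * ((a t).re + ‖b t‖) + δ ≤ (Φ b).re}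
  have hconv : Convex ℝ V := by
    rintro a1 ⟨b1, δ1, hδ1, h1⟩ a2 ⟨b2, δ2, hδ2, h2⟩ p q hp hq hpq
    refine ⟨(p : ℂ) • b1 + (q : ℂ) • b2, p * δ1 + q * δ2, ?_, ?_⟩
    · rcases hp.eq_or_lt with rfl | hp'
      · have : q = 1 := by linarith
        subst this; simpa using hδ2
      · have := mul_pos hp' hδ1
        have := mul_nonneg hq hδ2.le
        linarith
    · intro t
      have e1 := mul_le_mul_of_nonneg_left (h1 t) hp
      have e2 := mul_le_mul_of_nonneg_left (h2 t) hq
      have e3 : ‖((p : ℂ) • b1 + (q : ℂ) • b2) t‖ ≤ p * ‖b1 t‖ + q * ‖b2 t‖ := by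
        simp only [BoundedContinuousFunction.coe_add, BoundedContinuousFunction.coe_smul,
          Pi.add_apply]
        refine (norm_add_le _ _).trans ?_
        rw [norm_smul, norm_smul, Complex.norm_real, Complex.norm_real, Real.norm_of_nonneg hp,
          Real.norm_of_nonneg hq]
      have e4 : ((p • a1 + q • a2) t).re = p * (a1 t).re + q * (a2 t).re := by
        simp
      have e5 : (Φ ((p : ℂ) • b1 + (q : ℂ) • b2)).re = p * (Φ b1).re + q * (Φ b2).re := by
        simp
      rw [e4, e5]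
      have e6 := mul_le_mul_of_nonneg_left e3 hCpos.le
      nlinarith
  have hopen : IsOpen V := by
    rw [Metric.isOpen_iff]
    rintro a ⟨b, δ, hδ, h⟩
    refine ⟨δ / (2 * C), by positivity, ?_⟩
    intro a' ha'
    refine ⟨b, δ / 2, by positivity, fun t => ?_⟩
    have e1 : (a' t).re ≤ (a t).re + δ / (2 * C) := by
      have h1 : ‖(a' - a) t‖ ≤ ‖a' - a‖ := (a' - a).norm_coe_le_norm t
      have h2 : ((a' - a) t).re ≤ ‖(a' - a) t‖ := Complex.re_le_norm _
      have h3 : ‖a' - a‖ < δ / (2 * C) := by rwa [mem_ball_iff_norm] at ha'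
      have h4 : ((a' - a) t).re = (a' t).re - (a t).re := by simp
      linarith
    have e2 := h t
    have e3 := mul_le_mul_of_nonneg_left e1 hCpos.le
    have e4 : C * (δ / (2 * C)) = δ / 2 := by field_simp
    nlinarith
  have h0 : (0 : ℝ →ᵇ ℂ) ∉ V := by
    rintro ⟨b, δ, hδ, h⟩
    have hb : (Φ b).re ≤ C * ‖b‖ := by
      calc (Φ b).re ≤ ‖Φ b‖ := Complex.re_le_norm _
        _ ≤ ‖Φ‖ * ‖b‖ := Φ.le_opNorm b
        _ ≤ C * ‖b‖ := by
          apply mul_le_mul_of_nonneg_right _ (norm_nonneg _)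
          linarith
    have h1 : ∀ t, ‖b t‖ ≤ ‖b‖ - δ / C := by
      intro t
      have h2 := h t
      simp only [BoundedContinuousFunction.coe_zero, Pi.zero_apply, Complex.zero_re, zero_add] at h2
      have h3 : C * (‖b t‖) + δ ≤ C * ‖b‖ := h2.trans hb
      rw [le_sub_iff_add_le]
      have : C * (‖b t‖ + δ / C) ≤ C * ‖b‖ := by
        rw [mul_add, mul_div_cancel₀ _ hCpos.ne']; exact h3
      exact le_of_mul_le_mul_left this hCpos
    have h4 : 0 ≤ ‖b‖ - δ / C := (norm_nonneg _).trans (h1 0)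
    have h5 : ‖b‖ ≤ ‖b‖ - δ / C := (BoundedContinuousFunction.norm_le h4).2 h1
    have : 0 < δ / C := by positivity
    linarith
  obtain ⟨f, hf⟩ := geometric_hahn_banach_open_point hconv hopen h0
  simp only [map_zero] at hf
  have hone : 0 < f 1 := by
    have : (-1 : ℝ →ᵇ ℂ) ∈ V := by
      refine ⟨0, C, hCpos, fun t => ?_⟩
      simp
    have := hf _ this
    rw [map_neg] at this
    linarith
  refine ⟨(C / f 1) • f, ?_, ?_⟩
  · intro a ha
    have key : f a ≤ 0 := by
      by_contra hcon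
      push Not at hcon
      set δ' : ℝ := f a / (2 * f 1) with hδ'
      have hδ'pos : 0 < δ' := by positivity
      have hmem : a - δ' • (1 : ℝ →ᵇ ℂ) ∈ V := by
        refine ⟨0, C * δ', by positivity, fun t => ?_⟩
        have : ((a - δ' • (1 : ℝ →ᵇ ℂ)) t).re = (a t).re - δ' := by simp
        rw [this]
        simp only [BoundedContinuousFunction.coe_zero, Pi.zero_apply, norm_zero, add_zero, map_zero,
          Complex.zero_re]
        nlinarith [ha t]
      have := hf _ hmem
      rw [map_sub, map_smul, smul_eq_mul] at this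
      have e : δ' * f 1 = f a / 2 := by rw [hδ']; field_simp
      linarith
    have : (C / f 1) • f a ≤ 0 := by
      rw [smul_eq_mul]
      exact mul_nonpos_of_nonneg_of_nonpos (by positivity) key
    simpa using this
  · intro a b hab
    have key : ∀ δ' > 0, (Φ b).re - C * δ' ≤ (C / f 1) * f a := by
      intro δ' hδ'
      set r : ℝ := (Φ b).re / C - δ' with hr
      have hmem : -a + r • (1 : ℝ →ᵇ ℂ) ∈ V := by
        refine ⟨b, C * δ', by positivity, fun t => ?_⟩
        have e1 : ((-a + r • (1 : ℝ →ᵇ ℂ)) t).re = -(a t).re + r := by simp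
        rw [e1]
        have e2 : C * r = (Φ b).re - C * δ' := by rw [hr]; field_simp
        nlinarith [hab t]
      have h1 := hf _ hmem
      rw [map_add, map_neg, map_smul, smul_eq_mul] at h1
      have h2 : r * f 1 < f a := by linarith
      have h3 : (C / f 1) * (r * f 1) = (Φ b).re - C * δ' := by
        rw [hr]; field_simp
      rw [← h3]
      exact mul_le_mul_of_nonneg_left h2.le (by positivity)
    have h1 : (Φ b).re ≤ (C / f 1) * f a := by
      apply le_of_forall_pos_le_add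
      intro ε hε
      have := key (ε / C) (by positivity)
      have e : C * (ε / C) = ε := by field_simp
      linarith
    simpa using h1

/-- complex-linear positive functionals on bounded continuous functions. -/
structure PosFun where
  /-- the underlying linear functional. -/
  fn : (ℝ →ᵇ ℂ) →ₗ[ℂ] ℂ
  star' : ∀ a, fn (star a) = starRingEnd ℂ (fn a)
  nonneg' : ∀ a : ℝ →ᵇ ℂ, (∀ t, 0 ≤ (a t).re) → 0 ≤ (fn a).re

lemma exists_posFun (Φ : StrongDual ℂ (ℝ →ᵇ ℂ)) :
    ∃ P : PosFun, ∀ a b : ℝ →ᵇ ℂ, (∀ t, ‖b t‖ ≤ (a t).re) → (Φ b).re ≤ (P.fn a).re := by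
  obtain ⟨Ψ, h1, h2⟩ := exists_pos Φ
  have hre : ∀ a, ((Ψ.extendRCLike (𝕜 := ℂ)) a).re = Ψ a := fun a => by
    rw [← RCLike.re_eq_complex_re]
    exact StrongDual.re_extendRCLike_apply Ψ a
  have hrefn : ∀ a b : ℝ →ᵇ ℂ, (∀ t, (a t).re = (b t).re) → Ψ a = Ψ b := by
    intro a b hab
    have e1 : Ψ (a - b) ≤ 0 := h1 _ (fun t => by simp [hab t])
    have e2 : Ψ (b - a) ≤ 0 := h1 _ (fun t => by simp [hab t])
    rw [map_sub] at e1 e2
    linarith
  refine ⟨⟨(Ψ.extendRCLike (𝕜 := ℂ)).toLinearMap, ?_, ?_⟩, ?_⟩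
  · intro a
    apply Complex.ext
    · have : Ψ (star a) = Ψ a := hrefn _ _ (fun t => by simp)
      simpa [hre] using this
    · have e0 : ∀ b, ((Ψ.extendRCLike (𝕜 := ℂ)) b).im = - Ψ (Complex.I • b) := fun b => by
        exact StrongDual.im_extendRCLike_apply (𝕜 := ℂ) Ψ b
      have : Ψ (Complex.I • star a) = Ψ (-(Complex.I • a)) := hrefn _ _ (fun t => by simp)
      simp only [ContinuousLinearMap.coe_coe, Complex.conj_im, e0, this, map_neg]
  · intro a ha
    have : Ψ (-a) ≤ 0 := h1 _ (fun t => by simpa using ha t)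
    rw [map_neg] at this
    have h3 : 0 ≤ Ψ a := by linarith
    simpa [hre] using h3
  · intro a b hab
    have := h2 a b hab
    simpa [hre] using this

/-- the pre-Hilbert space of a positive functional. -/
def PreH (_ : PosFun) := ℝ →ᵇ ℂ

namespace PreH

variable (P : PosFun)

noncomputable instance : AddCommGroup (PreH P) := inferInstanceAs (AddCommGroup (ℝ →ᵇ ℂ))
noncomputable instance : Module ℂ (PreH P) := inferInstanceAs (Module ℂ (ℝ →ᵇ ℂ))

/-- the identity as a linear equivalence. -/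
noncomputable def toPre : (ℝ →ᵇ ℂ) ≃ₗ[ℂ] PreH P := LinearEquiv.refl ℂ _

/-- the inverse. -/
noncomputable def ofPre : PreH P ≃ₗ[ℂ] (ℝ →ᵇ ℂ) := (toPre P).symm

@[simp] lemma toPre_ofPre (a : PreH P) : toPre P (ofPre P a) = a := rfl
@[simp] lemma ofPre_toPre (a : ℝ →ᵇ ℂ) : ofPre P (toPre P a) = a := rfl

/-- the pre-inner product. -/
noncomputable abbrev core : PreInnerProductSpace.Core ℂ (PreH P) where
  inner a b := P.fn (star (ofPre P a) * ofPre P b)
  conj_inner_symm a b := by
    rw [← P.star']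
    congr 1
    simp [mul_comm]
  re_inner_nonneg a := by
    apply P.nonneg'
    intro t
    simp only [BoundedContinuousFunction.coe_mul, BoundedContinuousFunction.coe_star, Pi.mul_apply,
      Pi.star_apply, RCLike.star_def]
    rw [← Complex.normSq_eq_conj_mul_self, Complex.ofReal_re]
    exact Complex.normSq_nonneg _
  add_left a b c := by rw [map_add, star_add, add_mul, map_add]
  smul_left a b r := by simp

noncomputable instance : SeminormedAddCommGroup (PreH P) :=
  InnerProductSpace.Core.toSeminormedAddCommGroup (c := core P)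
noncomputable instance : InnerProductSpace ℂ (PreH P) :=
  InnerProductSpace.ofCore (core P)

lemma inner_def (a b : PreH P) : ⟪a, b⟫_ℂ = P.fn (star (ofPre P a) * ofPre P b) := rfl

lemma norm_sq (a : PreH P) : ‖a‖ ^ 2 = (P.fn (star (ofPre P a) * ofPre P a)).re := by
  rw [← inner_def, ← RCLike.re_eq_complex_re, inner_self_eq_norm_sq]

/-- monotonicity of the seminorm. -/
lemma norm_le_norm (a b : PreH P) (h : ∀ t, ‖ofPre P a t‖ ≤ ‖ofPre P b t‖) : ‖a‖ ≤ ‖b‖ := by
  have h1 : ‖a‖ ^ 2 ≤ ‖b‖ ^ 2 := by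
    rw [norm_sq, norm_sq, ← sub_nonneg, ← Complex.sub_re, ← map_sub]
    apply P.nonneg'
    intro t
    simp only [BoundedContinuousFunction.coe_mul, BoundedContinuousFunction.coe_star,
      BoundedContinuousFunction.coe_sub, Pi.mul_apply, Pi.sub_apply,
      Pi.star_apply, RCLike.star_def]
    rw [← Complex.normSq_eq_conj_mul_self, ← Complex.normSq_eq_conj_mul_self, ← Complex.ofReal_sub,
      Complex.ofReal_re, Complex.normSq_eq_norm_sq, Complex.normSq_eq_norm_sq, sub_nonneg]
    exact pow_le_pow_left₀ (norm_nonneg _) (h t) 2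
  exact le_of_sq_le_sq h1 (norm_nonneg _)

/-- multiplication by a character on the pre-Hilbert space. -/
noncomputable def mulEx (x : ℝ) : PreH P →ₗᵢ[ℂ] PreH P where
  toFun a := toPre P (ex x * ofPre P a)
  map_add' a b := by rw [map_add, mul_add, map_add]
  map_smul' c a := by rw [map_smul, mul_smul_comm, map_smul]; rfl
  norm_map' a := by
    apply le_antisymm
    · apply norm_le_norm
      intro t
      simp [norm_ex_apply]
    · apply norm_le_norm
      intro t
      simp [norm_ex_apply]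

lemma mulEx_apply (x : ℝ) (a : PreH P) : mulEx P x a = toPre P (ex x * ofPre P a) := rfl

/-- the Hilbert space. -/
abbrev HS := UniformSpace.Completion (PreH P)

/-- the unitary representation. -/
noncomputable def rep (x : ℝ) : HS P →ₗᵢ[ℂ] HS P where
  toLinearMap := ((mulEx P x).toContinuousLinearMap.completion).toLinearMap
  norm_map' v := by
    induction v using UniformSpace.Completion.induction_on with
    | hp => 
      apply isClosed_eq
      · exact ((mulEx P x).toContinuousLinearMap.completion).continuous.norm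
      · exact continuous_norm
    | ih a => 
      simp only [ContinuousLinearMap.coe_coe, ContinuousLinearMap.completion_apply_coe]
      simp

lemma rep_coe (x : ℝ) (a : PreH P) : rep P x (a : HS P) = ((mulEx P x a : PreH P) : HS P) := by
  change ((mulEx P x).toContinuousLinearMap.completion) (a : HS P) = _
  rw [ContinuousLinearMap.completion_apply_coe]
  rfl

lemma rep_zero (v : HS P) : rep P 0 v = v := by
  induction v using UniformSpace.Completion.induction_on with
  | hp => exact isClosed_eq (rep P 0).continuous continuous_id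
  | ih a => 
    rw [rep_coe, mulEx_apply, ex_zero, one_mul, toPre_ofPre]

lemma rep_add (x y : ℝ) (v : HS P) : rep P (x + y) v = rep P x (rep P y v) := by
  induction v using UniformSpace.Completion.induction_on with
  | hp => exact isClosed_eq (rep P _).continuous ((rep P x).continuous.comp (rep P y).continuous)
  | ih a => 
    rw [rep_coe, rep_coe, rep_coe, mulEx_apply, mulEx_apply, mulEx_apply, ex_add, ofPre_toPre,
      mul_assoc]

/-- the cyclic vector. -/
noncomputable def cyc : HS P := ((toPre P 1 : PreH P) : HS P)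

lemma rep_cyc (x : ℝ) : rep P x (cyc P) = ((toPre P (ex x) : PreH P) : HS P) := by
  rw [cyc, rep_coe, mulEx_apply, ofPre_toPre, mul_one]

lemma norm_toPre_le (a : ℝ →ᵇ ℂ) : ‖toPre P a‖ ≤ ‖toPre P 1‖ * ‖a‖ := by
  have h1 : ‖toPre P a‖ ≤ ‖toPre P ((‖a‖ : ℂ) • (1 : ℝ →ᵇ ℂ))‖ := by
    apply norm_le_norm
    intro t
    simp only [ofPre_toPre]
    have := a.norm_coe_le_norm t
    simpa using this
  rw [map_smul, norm_smul, Complex.norm_real, norm_norm, mul_comm] at h1
  exact h1

end PreH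

open PreH

lemma exists_rep (Φ : StrongDual ℂ (ℝ →ᵇ ℂ)) :
    ∃ (P : PosFun) (η : HS P), ∀ a : ℝ →ᵇ ℂ, Φ a = ⟪η, ((toPre P a : PreH P) : HS P)⟫_ℂ := by
  obtain ⟨P, hP⟩ := exists_posFun Φ
  refine ⟨P, ?_⟩
  have hbd : ∀ a : ℝ →ᵇ ℂ, ‖Φ a‖ ≤ ‖toPre P 1‖ * ‖toPre P a‖ := by
    intro a
    let m : ℝ →ᵇ ℂ := BoundedContinuousFunction.ofNormedAddCommGroup
      (fun t => ((‖a t‖ : ℝ) : ℂ)) (by fun_prop) ‖a‖ (by
        intro t
        rw [Complex.norm_real, norm_norm]
        exact a.norm_coe_le_norm t)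
    have hm : ∀ t, m t = ((‖a t‖ : ℝ) : ℂ) := fun t => rfl
    have h1 : ‖Φ a‖ ≤ (P.fn m).re := by
      rcases eq_or_ne (Φ a) 0 with h0 | h0
      · rw [h0, norm_zero]
        apply P.nonneg'
        intro t
        rw [hm, Complex.ofReal_re]
        exact norm_nonneg _
      · have hn : (‖Φ a‖ : ℂ) ≠ 0 := by simpa using h0
        have h2 := hP m ((starRingEnd ℂ (Φ a) / (‖Φ a‖ : ℂ)) • a) (by
          intro t
          rw [hm, Complex.ofReal_re, BoundedContinuousFunction.coe_smul, norm_smul, norm_div,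
            RCLike.norm_conj, Complex.norm_real, norm_norm, div_self (by simpa using h0), one_mul])
        rw [map_smul, smul_eq_mul, div_mul_eq_mul_div, Complex.conj_mul', sq,
          mul_div_assoc, div_self hn, mul_one, Complex.ofReal_re] at h2
        exact h2
    have h3 : P.fn m = ⟪toPre P 1, toPre P m⟫_ℂ := by
      rw [inner_def]; simp
    calc ‖Φ a‖ ≤ (P.fn m).re := h1
      _ ≤ ‖P.fn m‖ := Complex.re_le_norm _
      _ ≤ ‖toPre P 1‖ * ‖toPre P m‖ := by rw [h3]; exact norm_inner_le_norm _ _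
      _ ≤ ‖toPre P 1‖ * ‖toPre P a‖ := by
        apply mul_le_mul_of_nonneg_left _ (norm_nonneg _)
        apply norm_le_norm
        intro t
        simp only [ofPre_toPre, hm, Complex.norm_real, norm_norm, le_refl]
  let F : PreH P →L[ℂ] ℂ := LinearMap.mkContinuous
    (Φ.toLinearMap ∘ₗ (ofPre P).toLinearMap) (‖toPre P 1‖) (fun a => hbd (ofPre P a))
  let F' : HS P →L[ℂ] ℂ := F.fromCompletion
  refine ⟨(InnerProductSpace.toDual ℂ (HS P)).symm F', fun a => ?_⟩
  rw [InnerProductSpace.toDual_symm_apply]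
  change Φ a = F.fromCompletion _
  rw [ContinuousLinearMap.fromCompletion_apply_coe]
  rfl

/-- functions on the line which are characteristic functions of bounded functionals. -/
def Rinf (g : ℝ → ℂ) : Prop := ∃ Φ : StrongDual ℂ (ℝ →ᵇ ℂ), ∀ x, Φ (ex x) = g x

lemma Rinf_inner (P : PosFun) (η : HS P) : Rinf (fun x => ⟪η, rep P x (cyc P)⟫_ℂ) := by
  let L : (ℝ →ᵇ ℂ) →L[ℂ] PreH P := LinearMap.mkContinuous (toPre P).toLinearMap ‖toPre P 1‖
    (norm_toPre_le P)
  let L2 : PreH P →L[ℂ] HS P := UniformSpace.Completion.toComplL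
  refine ⟨(innerSL ℂ η).comp (L2.comp L), fun x => ?_⟩
  change _ = ⟪η, rep P x (cyc P)⟫_ℂ
  rw [rep_cyc]
  rfl

theorem one_sided {g : ℝ → ℂ} (hg : Rinf g) (b : ℝ)
    (hm : AEMeasurable g (volume.restrict (Iio b))) :
    ∃ g' : ℝ → ℂ, Rinf g' ∧ (∀ x < b, g' x = g x) ∧ AEMeasurable g' volume := by
  obtain ⟨Φ, hΦ⟩ := hg
  obtain ⟨P, η, hη⟩ := exists_rep Φ
  have h1 : ∀ x, ⟪η, rep P x (cyc P)⟫_ℂ = g x := by
    intro x
    rw [rep_cyc, ← hη, hΦ]
  obtain ⟨η', h2, h3⟩ := core (rep P) (rep_zero P) (rep_add P) (cyc P) η b (by simpa only [h1] using hm)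
  exact ⟨_, Rinf_inner P η', fun x hx => by rw [h2 x hx, h1], h3⟩

end Pool.Agent.MP_8048c5_an
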