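import Mathlib
import Pool.Agent.MP_8048c5_an.Rep

set_option autoImplicit false

open MeasureTheory Set Filter Topology
open scoped InnerProductSpace BoundedContinuousFunction FourierTransform SchwartzMap

namespace Pool.Agent.MP_8048c5_an

lemma factor {V E : Type*} [AddCommGroup V] [Module ℂ V] [SeminormedAddCommGroup E]
    [NormedSpace ℂ E] (L : V →ₗ[ℂ] E) (F : V →ₗ[ℂ] ℂ) (C : ℝ) (h : ∀ v, ‖F v‖ ≤ C * ‖L v‖) :
    ∃ Φ : StrongDual ℂ E, ∀ v, Φ (L v) = F v := by
  have hker : LinearMap.ker L ≤ LinearMap.ker F := by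
    intro v hv
    rw [LinearMap.mem_ker] at *
    have := h v
    rw [hv, norm_zero, mul_zero] at this
    exact norm_le_zero_iff.1 this
  let f : LinearMap.range L →ₗ[ℂ] ℂ :=
    ((LinearMap.ker L).liftQ F hker) ∘ₗ (L.quotKerEquivRange.symm).toLinearMap
  have hf : ∀ v, f ⟨L v, LinearMap.mem_range_self L v⟩ = F v := by
    intro v
    simp only [f, LinearMap.comp_apply, LinearEquiv.coe_coe]
    rw [LinearMap.quotKerEquivRange_symm_apply_image, Submodule.mkQ_apply, Submodule.liftQ_apply]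
  have hf2 : ∀ y : LinearMap.range L, ‖f y‖ ≤ C * ‖y‖ := by
    rintro ⟨y, v, rfl⟩
    rw [hf]
    exact h v
  obtain ⟨Φ, hΦ, -⟩ := exists_extension_norm_eq (LinearMap.range L) (f.mkContinuous C hf2)
  refine ⟨Φ, fun v => ?_⟩
  have := hΦ ⟨L v, LinearMap.mem_range_self L v⟩
  rw [LinearMap.mkContinuous_apply, hf] at this
  exact this

/-- boundedness of the functional with a given characteristic function, frequencies in `S`. -/
def BdOn (S : Set ℝ) (f : ℝ → ℂ) : Prop :=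
  ∃ C : ℝ, ∀ s : Finset ℝ, (∀ x ∈ s, x ∈ S) → ∀ c : ℝ → ℂ, ∀ M : ℝ,
    (∀ t : ℝ, ‖∑ x ∈ s, c x * Complex.exp (Complex.I * (x : ℂ) * (t : ℂ))‖ ≤ M) →
    ‖∑ x ∈ s, c x * f x‖ ≤ C * M

lemma sum_ex_apply (s : Finset ℝ) (c : ℝ → ℂ) (t : ℝ) :
    (∑ x ∈ s, c x • ex x) t = ∑ x ∈ s, c x * Complex.exp (Complex.I * (x : ℂ) * (t : ℂ)) := by
  rw [BoundedContinuousFunction.coe_sum, Finset.sum_apply]
  rfl

lemma BdOn.exists_functional {S : Set ℝ} {f : ℝ → ℂ} (h : BdOn S f) :
    ∃ Φ : StrongDual ℂ (ℝ →ᵇ ℂ), ∀ x ∈ S, Φ (ex x) = f x := by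
  obtain ⟨C, hC⟩ := h
  let L : Finsupp.supported ℂ ℂ S →ₗ[ℂ] (ℝ →ᵇ ℂ) :=
    (Finsupp.linearCombination ℂ ex) ∘ₗ (Finsupp.supported ℂ ℂ S).subtype
  let F : Finsupp.supported ℂ ℂ S →ₗ[ℂ] ℂ :=
    (Finsupp.linearCombination ℂ f) ∘ₗ (Finsupp.supported ℂ ℂ S).subtype
  have hLF : ∀ v, ‖F v‖ ≤ C * ‖L v‖ := by
    intro v
    have h1 : F v = ∑ x ∈ v.1.support, v.1 x * f x := by
      simp [F, Finsupp.linearCombination_apply, Finsupp.sum]
    have h2 : L v = ∑ x ∈ v.1.support, v.1 x • ex x := by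
      simp [L, Finsupp.linearCombination_apply, Finsupp.sum]
    rw [h1]
    apply hC
    · intro x hx
      exact (Finsupp.mem_supported ℂ v.1).1 v.2 hx
    · intro t
      rw [← sum_ex_apply, ← h2]
      exact (L v).norm_coe_le_norm t
  obtain ⟨Φ, hΦ⟩ := factor L F C hLF
  refine ⟨Φ, fun x hx => ?_⟩
  have hmem : Finsupp.single x (1 : ℂ) ∈ Finsupp.supported ℂ ℂ S :=
    Finsupp.single_mem_supported ℂ _ hx
  have := hΦ ⟨Finsupp.single x 1, hmem⟩
  simpa [L, F, Finsupp.linearCombination_single] using this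

lemma Rinf.bdOn {f : ℝ → ℂ} (h : Rinf f) : BdOn univ f := by
  obtain ⟨Φ, hΦ⟩ := h
  refine ⟨‖Φ‖, fun s _ c M hM => ?_⟩
  have h1 : ∑ x ∈ s, c x * f x = Φ (∑ x ∈ s, c x • ex x) := by
    rw [map_sum]
    refine Finset.sum_congr rfl fun x _ => ?_
    rw [map_smul, hΦ, smul_eq_mul]
  rw [h1]
  refine (Φ.le_opNorm _).trans (mul_le_mul_of_nonneg_left ?_ (norm_nonneg _))
  have hM0 : 0 ≤ M := (norm_nonneg _).trans (hM 0)
  rw [BoundedContinuousFunction.norm_le hM0]
  intro t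
  rw [sum_ex_apply]
  exact hM t

lemma BdOn.rinf {f : ℝ → ℂ} (h : BdOn univ f) : Rinf f := by
  obtain ⟨Φ, hΦ⟩ := h.exists_functional
  exact ⟨Φ, fun x => hΦ x (mem_univ x)⟩

lemma Rinf.add {f g : ℝ → ℂ} (hf : Rinf f) (hg : Rinf g) : Rinf (fun x => f x + g x) := by
  obtain ⟨Φ, hΦ⟩ := hf
  obtain ⟨Ψ, hΨ⟩ := hg
  exact ⟨Φ + Ψ, fun x => by simp [hΦ, hΨ]⟩

lemma Rinf.sub {f g : ℝ → ℂ} (hf : Rinf f) (hg : Rinf g) : Rinf (fun x => f x - g x) := by
  obtain ⟨Φ, hΦ⟩ := hf
  obtain ⟨Ψ, hΨ⟩ := hg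
  exact ⟨Φ - Ψ, fun x => by simp [hΦ, hΨ]⟩

lemma Rinf.neg_comp {f : ℝ → ℂ} (hf : Rinf f) : Rinf (fun x => f (-x)) := by
  obtain ⟨Φ, hΦ⟩ := hf
  let L : (ℝ →ᵇ ℂ) →L[ℂ] (ℝ →ᵇ ℂ) := LinearMap.mkContinuous
    { toFun := fun a => a.compContinuous ⟨fun t : ℝ => -t, continuous_neg⟩
      map_add' := fun a b => by ext t; simp
      map_smul' := fun c a => by ext t; simp } 1 (by
        intro a
        rw [one_mul]
        rw [BoundedContinuousFunction.norm_le (norm_nonneg _)]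
        intro t
        exact a.norm_coe_le_norm (-t))
  refine ⟨Φ.comp L, fun x => ?_⟩
  have : L (ex x) = ex (-x) := by
    ext t
    change ex x (-t) = ex (-x) t
    rw [ex_apply, ex_apply]
    congr 1
    push_cast
    ring
  rw [ContinuousLinearMap.comp_apply, this, hΦ]

lemma Rinf.mul_schwartz {f : ℝ → ℂ} (hf : Rinf f) (χ : 𝓢(ℝ, ℂ)) : Rinf (fun x => χ x * f x) := by
  apply BdOn.rinf
  obtain ⟨C, hC⟩ := hf.bdOn
  set k : 𝓢(ℝ, ℂ) := 𝓕⁻ χ with hk
  have hχ : ∀ x : ℝ, χ x = ∫ v : ℝ, Complex.exp (↑(-2 * Real.pi * v * x) * Complex.I) * k v := by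
    intro x
    have h1 : 𝓕 k = χ := by rw [hk]; exact FourierTransform.fourier_fourierInv_eq χ
    have h2 : (𝓕 k : 𝓢(ℝ, ℂ)) x = 𝓕 (k : ℝ → ℂ) x := by
      rw [SchwartzMap.fourier_coe]
    rw [← h1, h2, Real.fourier_real_eq_integral_exp_smul]
    rfl
  have hkint : Integrable (fun v => ‖k v‖) := (k.integrable (μ := volume)).norm
  refine ⟨C * ∫ v, ‖k v‖, fun s hs c M hM => ?_⟩
  have hint : ∀ x : ℝ, Integrable
      (fun v : ℝ => Complex.exp (↑(-2 * Real.pi * v * x) * Complex.I) * k v) := by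
    intro x
    refine (k.integrable (μ := volume)).bdd_mul (c := 1) ?_ (ae_of_all _ fun v => ?_)
    · exact Continuous.aestronglyMeasurable (by fun_prop)
    · rw [Complex.norm_exp_ofReal_mul_I]
  have h1 : ∑ x ∈ s, c x * (χ x * f x)
      = ∫ v : ℝ, k v * ∑ x ∈ s, (c x * Complex.exp (↑(-2 * Real.pi * v * x) * Complex.I)) * f x := by
    have : ∀ v : ℝ, k v * ∑ x ∈ s, (c x * Complex.exp (↑(-2 * Real.pi * v * x) * Complex.I)) * f x
        = ∑ x ∈ s, (c x * f x) * (Complex.exp (↑(-2 * Real.pi * v * x) * Complex.I) * k v) := by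
      intro v
      rw [Finset.mul_sum]
      refine Finset.sum_congr rfl fun x _ => ?_
      ring
    simp_rw [this]
    rw [integral_finsetSum _ (fun x _ => (hint x).const_mul _)]
    refine Finset.sum_congr rfl fun x _ => ?_
    rw [integral_const_mul, ← hχ]
    ring
  rw [h1]
  have h2 : ∀ v : ℝ,
      ‖∑ x ∈ s, (c x * Complex.exp (↑(-2 * Real.pi * v * x) * Complex.I)) * f x‖ ≤ C * M := by
    intro v
    apply hC s hs (fun x => c x * Complex.exp (↑(-2 * Real.pi * v * x) * Complex.I)) M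
    intro t
    have h3 := hM (t - 2 * Real.pi * v)
    convert h3 using 3 with x
    rw [mul_assoc, ← Complex.exp_add]
    congr 2
    push_cast
    ring
  calc ‖∫ v : ℝ, k v * ∑ x ∈ s, (c x * Complex.exp (↑(-2 * Real.pi * v * x) * Complex.I)) * f x‖
      ≤ ∫ v : ℝ, ‖k v‖ * (C * M) := by
        refine norm_integral_le_of_norm_le (hkint.mul_const _) (ae_of_all _ fun v => ?_)
        rw [norm_mul]
        exact mul_le_mul_of_nonneg_left (h2 v) (norm_nonneg _)
    _ = C * (∫ v, ‖k v‖) * M := by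
        rw [integral_mul_const]; ring

theorem one_sided_right {g : ℝ → ℂ} (hg : Rinf g) (b : ℝ)
    (hm : AEMeasurable g (volume.restrict (Ioi b))) :
    ∃ g' : ℝ → ℂ, Rinf g' ∧ (∀ x > b, g' x = g x) ∧ AEMeasurable g' volume := by
  have hm' : AEMeasurable (fun x => g (-x)) (volume.restrict (Iio (-b))) := by
    have hmp : MeasurePreserving (fun x : ℝ => -x) (volume.restrict (Iio (-b)))
        (volume.restrict (Ioi b)) := by
      have := (Measure.measurePreserving_neg (volume : Measure ℝ)).restrict_preimage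
        (s := Ioi b) measurableSet_Ioi
      have h2 : (fun x : ℝ => -x) ⁻¹' Ioi b = Iio (-b) := by
        ext x; simp
      rwa [h2] at this
    exact hm.comp_quasiMeasurePreserving hmp.quasiMeasurePreserving
  obtain ⟨g', h1, h2, h3⟩ := one_sided hg.neg_comp (-b) hm'
  refine ⟨fun x => g' (-x), h1.neg_comp, fun x hx => ?_, ?_⟩
  · have := h2 (-x) (by linarith)
    simpa using this
  · exact h3.comp_quasiMeasurePreserving
      (Measure.measurePreserving_neg (volume : Measure ℝ)).quasiMeasurePreserving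

/-- a smooth cutoff as a Schwartz function. -/
lemma exists_cutoff (c r R : ℝ) (hr : 0 < r) (hrR : r < R) :
    ∃ χ : 𝓢(ℝ, ℂ), (∀ x, |x - c| ≤ r → χ x = 1) ∧ ∀ x, R ≤ |x - c| → χ x = 0 := by
  let φ : ContDiffBump c := ⟨r, R, hr, hrR⟩
  have h1 : HasCompactSupport (fun x => ((φ x : ℝ) : ℂ)) :=
    φ.hasCompactSupport.comp_left (g := fun y : ℝ => (y : ℂ)) (by simp)
  have h2 : ContDiff ℝ (⊤ : ℕ∞) (fun x => ((φ x : ℝ) : ℂ)) :=
    Complex.ofRealCLM.contDiff.comp φ.contDiff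
  refine ⟨h1.toSchwartzMap h2, fun x hx => ?_, fun x hx => ?_⟩
  · have : φ x = 1 := φ.one_of_mem_closedBall (by
      rw [Metric.mem_closedBall, Real.dist_eq]; exact hx)
    change ((φ x : ℝ) : ℂ) = 1
    rw [this, Complex.ofReal_one]
  · have : φ x = 0 := φ.zero_of_le_dist (by rw [Real.dist_eq]; exact hx)
    change ((φ x : ℝ) : ℂ) = 0
    rw [this, Complex.ofReal_zero]

theorem extension (A : ℝ) (hA : 0 < A) (f : ℝ → ℂ)
    (hf : AEMeasurable f (volume.restrict (Ioo (-A) A))) (hb : BdOn (Ioo (-A) A) f) :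
    ∃ g : ℝ → ℂ, (∀ x ∈ Ioo (-A) A, g x = f x) ∧ AEMeasurable g volume ∧ BdOn univ g := by
  obtain ⟨Φ, hΦ⟩ := hb.exists_functional
  obtain ⟨χ, hχ1, hχ0⟩ := exists_cutoff 0 A (2 * A) hA (by linarith)
  obtain ⟨ψ, hψ1, hψ0⟩ := exists_cutoff A A (3 * A / 2) hA (by linarith)
  -- compactly supported extension
  let F : ℝ → ℂ := fun x => χ x * Φ (ex x)
  have hF : Rinf F := Rinf.mul_schwartz ⟨Φ, fun _ => rfl⟩ χ
  have hFf : ∀ x ∈ Ioo (-A) A, F x = f x := by
    intro x hx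
    simp only [F]
    rw [hχ1 x (by rw [sub_zero, abs_le]; exact ⟨hx.1.le, hx.2.le⟩), hΦ x hx, one_mul]
  have hFm : AEMeasurable F (volume.restrict (Ioo (-A) A)) := by
    refine hf.congr ?_
    exact (ae_restrict_iff' measurableSet_Ioo).2 (ae_of_all _ fun x hx => (hFf x hx).symm)
  have hψm : AEMeasurable (fun x => ψ x) (volume.restrict (Ioo (-A) A)) :=
    ψ.continuous.measurable.aemeasurable
  -- right part
  have hR : Rinf (fun x => ψ x * F x) := hF.mul_schwartz ψ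
  have hRm : AEMeasurable (fun x => ψ x * F x) (volume.restrict (Iio A)) := by
    have hU : Iio A = Iic (-A) ∪ Ioo (-A) A := by
      ext x; simp only [mem_Iio, mem_union, mem_Iic, mem_Ioo]
      constructor
      · intro h
        rcases le_or_gt x (-A) with h1 | h1
        · exact Or.inl h1
        · exact Or.inr ⟨h1, h⟩
      · rintro (h | h)
        · linarith
        · exact h.2
    rw [hU, aemeasurable_union_iff]
    refine ⟨?_, hψm.mul hFm⟩
    refine (aemeasurable_const (b := (0 : ℂ))).congr ?_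
    refine (ae_restrict_iff' measurableSet_Iic).2 (ae_of_all _ fun x hx => ?_)
    rw [mem_Iic] at hx
    have h0 : ψ x = 0 := hψ0 x (by rw [abs_sub_comm, abs_of_pos (by linarith)]; linarith)
    change (0 : ℂ) = ψ x * F x
    rw [h0, zero_mul]
  -- left part
  have hL : Rinf (fun x => F x - ψ x * F x) := hF.sub hR
  have hLm : AEMeasurable (fun x => F x - ψ x * F x) (volume.restrict (Ioi (-A))) := by
    have hU : Ioi (-A) = Ioo (-A) A ∪ Ici A := by
      ext x; simp only [mem_Ioi, mem_union, mem_Ici, mem_Ioo]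
      constructor
      · intro h
        rcases lt_or_ge x A with h1 | h1
        · exact Or.inl ⟨h, h1⟩
        · exact Or.inr h1
      · rintro (h | h)
        · exact h.1
        · linarith
    rw [hU, aemeasurable_union_iff]
    refine ⟨hFm.sub (hψm.mul hFm), ?_⟩
    refine (aemeasurable_const (b := (0 : ℂ))).congr ?_
    refine (ae_restrict_iff' measurableSet_Ici).2 (ae_of_all _ fun x hx => ?_)
    rw [mem_Ici] at hx
    rcases le_or_gt x (2 * A) with h1 | h1
    · have h2 : ψ x = 1 := hψ1 x (by rw [abs_of_nonneg (by linarith)]; linarith)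
      change (0 : ℂ) = F x - ψ x * F x
      rw [h2]; simp
    · have : F x = 0 := by
        simp only [F]
        rw [hχ0 x (by rw [sub_zero, abs_of_pos (by linarith)]; linarith), zero_mul]
      change (0 : ℂ) = F x - ψ x * F x
      rw [this]; simp
  obtain ⟨g1, h11, h12, h13⟩ := one_sided hR A hRm
  obtain ⟨g2, h21, h22, h23⟩ := one_sided_right hL (-A) hLm
  refine ⟨fun x => g1 x + g2 x, fun x hx => ?_, h13.add h23, (h11.add h21).bdOn⟩
  change g1 x + g2 x = f x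
  rw [h12 x hx.2, h22 x hx.1, ← hFf x hx]
  ring

end Pool.Agent.MP_8048c5_an
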