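import Mathlib
import Pool.Agent.MP_8048c5_an.Final

set_option autoImplicit false

open MeasureTheory Set Filter Topology
open scoped InnerProductSpace BoundedContinuousFunction FourierTransform SchwartzMap

namespace Pool.Agent.MP_8048c5_an.Strong

open Pool.Agent.MP_8048c5_an PreH

/-- A positive functional dominating a given functional, with control of the norm. -/
lemma exists_pos_norm (Φ : StrongDual ℂ (ℝ →ᵇ ℂ)) (C : ℝ) (hCpos : 0 < C) (hC : ‖Φ‖ ≤ C) :
    ∃ Ψ : StrongDual ℝ (ℝ →ᵇ ℂ), (∀ a : ℝ →ᵇ ℂ, (∀ t, (a t).re ≤ 0) → Ψ a ≤ 0) ∧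
      (∀ a b : ℝ →ᵇ ℂ, (∀ t, ‖b t‖ ≤ (a t).re) → (Φ b).re ≤ Ψ a) ∧ Ψ 1 = C := by
  let V : Set (ℝ →ᵇ ℂ) := {a | ∃ b : ℝ →ᵇ ℂ, ∃ δ > 0, ∀ t, C * ((a t).re + ‖b t‖) + δ ≤ (Φ b).re}
  have hconv : Convex ℝ V := by
    rintro a1 ⟨b1, δ1, hδ1, h1⟩ a2 ⟨b2, δ2, hδ2, h2⟩ p q hp hq hpq
    refine ⟨(p : ℂ) • b1 + (q : ℂ) • b2, p * δ1 + q * δ2, ?_, ?_⟩
    · rcases hp.eq_or_lt with rfl | hp'
      · have : q = 1 := by linarith
        subst this; simpa using hδ2
      · have := mul_pos hp' hδ1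
        have := mul_nonneg hq hδ2.le
        linarith
    · intro t
      have e1 := mul_le_mul_of_nonneg_left (h1 t) hp
      have e2 := mul_le_mul_of_nonneg_left (h2 t) hq
      have e3 : ‖((p : ℂ) • b1 + (q : ℂ) • b2) t‖ ≤ p * ‖b1 t‖ + q * ‖b2 t‖ := by
        simp only [BoundedContinuousFunction.coe_add, BoundedContinuousFunction.coe_smul,
          Pi.add_apply]
        refine (norm_add_le _ _).trans ?_
        rw [norm_smul, norm_smul, Complex.norm_real, Complex.norm_real, Real.norm_of_nonneg hp,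
          Real.norm_of_nonneg hq]
      have e4 : ((p • a1 + q • a2) t).re = p * (a1 t).re + q * (a2 t).re := by
        simp
      have e5 : (Φ ((p : ℂ) • b1 + (q : ℂ) • b2)).re = p * (Φ b1).re + q * (Φ b2).re := by
        simp
      rw [e4, e5]
      have e6 := mul_le_mul_of_nonneg_left e3 hCpos.le
      nlinarith
  have hopen : IsOpen V := by
    rw [Metric.isOpen_iff]
    rintro a ⟨b, δ, hδ, h⟩
    refine ⟨δ / (2 * C), by positivity, ?_⟩
    intro a' ha'
    refine ⟨b, δ / 2, by positivity, fun t => ?_⟩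
    have e1 : (a' t).re ≤ (a t).re + δ / (2 * C) := by
      have h1 : ‖(a' - a) t‖ ≤ ‖a' - a‖ := (a' - a).norm_coe_le_norm t
      have h2 : ((a' - a) t).re ≤ ‖(a' - a) t‖ := Complex.re_le_norm _
      have h3 : ‖a' - a‖ < δ / (2 * C) := by rwa [mem_ball_iff_norm] at ha'
      have h4 : ((a' - a) t).re = (a' t).re - (a t).re := by simp
      linarith
    have e2 := h t
    have e3 := mul_le_mul_of_nonneg_left e1 hCpos.le
    have e4 : C * (δ / (2 * C)) = δ / 2 := by field_simp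
    nlinarith
  have h0 : (0 : ℝ →ᵇ ℂ) ∉ V := by
    rintro ⟨b, δ, hδ, h⟩
    have hb : (Φ b).re ≤ C * ‖b‖ := by
      calc (Φ b).re ≤ ‖Φ b‖ := Complex.re_le_norm _
        _ ≤ ‖Φ‖ * ‖b‖ := Φ.le_opNorm b
        _ ≤ C * ‖b‖ := by
          apply mul_le_mul_of_nonneg_right _ (norm_nonneg _)
          linarith
    have h1 : ∀ t, ‖b t‖ ≤ ‖b‖ - δ / C := by
      intro t
      have h2 := h t
      simp only [BoundedContinuousFunction.coe_zero, Pi.zero_apply, Complex.zero_re, zero_add] at h2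
      have h3 : C * (‖b t‖) + δ ≤ C * ‖b‖ := h2.trans hb
      rw [le_sub_iff_add_le]
      have : C * (‖b t‖ + δ / C) ≤ C * ‖b‖ := by
        rw [mul_add, mul_div_cancel₀ _ hCpos.ne']; exact h3
      exact le_of_mul_le_mul_left this hCpos
    have h4 : 0 ≤ ‖b‖ - δ / C := (norm_nonneg _).trans (h1 0)
    have h5 : ‖b‖ ≤ ‖b‖ - δ / C := (BoundedContinuousFunction.norm_le h4).2 h1
    have : 0 < δ / C := by positivity
    linarith
  obtain ⟨f, hf⟩ := geometric_hahn_banach_open_point hconv hopen h0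
  simp only [map_zero] at hf
  have hone : 0 < f 1 := by
    have : (-1 : ℝ →ᵇ ℂ) ∈ V := by
      refine ⟨0, C, hCpos, fun t => ?_⟩
      simp
    have := hf _ this
    rw [map_neg] at this
    linarith
  refine ⟨(C / f 1) • f, ?_, ?_, ?_⟩
  · intro a ha
    have key : f a ≤ 0 := by
      by_contra hcon
      push Not at hcon
      set δ' : ℝ := f a / (2 * f 1) with hδ'
      have hδ'pos : 0 < δ' := by positivity
      have hmem : a - δ' • (1 : ℝ →ᵇ ℂ) ∈ V := by
        refine ⟨0, C * δ', by positivity, fun t => ?_⟩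
        have : ((a - δ' • (1 : ℝ →ᵇ ℂ)) t).re = (a t).re - δ' := by simp
        rw [this]
        simp only [BoundedContinuousFunction.coe_zero, Pi.zero_apply, norm_zero, add_zero, map_zero,
          Complex.zero_re]
        nlinarith [ha t]
      have := hf _ hmem
      rw [map_sub, map_smul, smul_eq_mul] at this
      have e : δ' * f 1 = f a / 2 := by rw [hδ']; field_simp
      linarith
    have : (C / f 1) • f a ≤ 0 := by
      rw [smul_eq_mul]
      exact mul_nonpos_of_nonneg_of_nonpos (by positivity) key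
    simpa using this
  · intro a b hab
    have key : ∀ δ' > 0, (Φ b).re - C * δ' ≤ (C / f 1) * f a := by
      intro δ' hδ'
      set r : ℝ := (Φ b).re / C - δ' with hr
      have hmem : -a + r • (1 : ℝ →ᵇ ℂ) ∈ V := by
        refine ⟨b, C * δ', by positivity, fun t => ?_⟩
        have e1 : ((-a + r • (1 : ℝ →ᵇ ℂ)) t).re = -(a t).re + r := by simp
        rw [e1]
        have e2 : C * r = (Φ b).re - C * δ' := by rw [hr]; field_simp
        nlinarith [hab t]
      have h1 := hf _ hmem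
      rw [map_add, map_neg, map_smul, smul_eq_mul] at h1
      have h2 : r * f 1 < f a := by linarith
      have h3 : (C / f 1) * (r * f 1) = (Φ b).re - C * δ' := by
        rw [hr]; field_simp
      rw [← h3]
      exact mul_le_mul_of_nonneg_left h2.le (by positivity)
    have h1 : (Φ b).re ≤ (C / f 1) * f a := by
      apply le_of_forall_pos_le_add
      intro ε hε
      have := key (ε / C) (by positivity)
      have e : C * (ε / C) = ε := by field_simp
      linarith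
    simpa using h1
  · change (C / f 1) * f 1 = C
    exact div_mul_cancel₀ C hone.ne'

lemma exists_posFun_norm (Φ : StrongDual ℂ (ℝ →ᵇ ℂ)) (C : ℝ) (hCpos : 0 < C) (hC : ‖Φ‖ ≤ C) :
    ∃ P : PosFun, (∀ a b : ℝ →ᵇ ℂ, (∀ t, ‖b t‖ ≤ (a t).re) → (Φ b).re ≤ (P.fn a).re) ∧
      (P.fn 1).re = C := by
  obtain ⟨Ψ, h1, h2, h1C⟩ := exists_pos_norm Φ C hCpos hC
  have hre : ∀ a, ((Ψ.extendRCLike (𝕜 := ℂ)) a).re = Ψ a := fun a => by
    rw [← RCLike.re_eq_complex_re]
    exact StrongDual.re_extendRCLike_apply Ψ a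
  have hrefn : ∀ a b : ℝ →ᵇ ℂ, (∀ t, (a t).re = (b t).re) → Ψ a = Ψ b := by
    intro a b hab
    have e1 : Ψ (a - b) ≤ 0 := h1 _ (fun t => by simp [hab t])
    have e2 : Ψ (b - a) ≤ 0 := h1 _ (fun t => by simp [hab t])
    rw [map_sub] at e1 e2
    linarith
  refine ⟨⟨(Ψ.extendRCLike (𝕜 := ℂ)).toLinearMap, ?_, ?_⟩, ?_, ?_⟩
  · intro a
    apply Complex.ext
    · have : Ψ (star a) = Ψ a := hrefn _ _ (fun t => by simp)
      simpa [hre] using this
    · have e0 : ∀ b, ((Ψ.extendRCLike (𝕜 := ℂ)) b).im = - Ψ (Complex.I • b) := fun b => by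
        exact StrongDual.im_extendRCLike_apply (𝕜 := ℂ) Ψ b
      have : Ψ (Complex.I • star a) = Ψ (-(Complex.I • a)) := hrefn _ _ (fun t => by simp)
      simp only [ContinuousLinearMap.coe_coe, Complex.conj_im, e0, this, map_neg]
  · intro a ha
    have : Ψ (-a) ≤ 0 := h1 _ (fun t => by simpa using ha t)
    rw [map_neg] at this
    have h3 : 0 ≤ Ψ a := by linarith
    simpa [hre] using h3
  · intro a b hab
    have := h2 a b hab
    simpa [hre] using this
  · have := hre 1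
    rw [h1C] at this
    exact this

lemma exists_rep_norm (Φ : StrongDual ℂ (ℝ →ᵇ ℂ)) (C : ℝ) (hCpos : 0 < C) (hC : ‖Φ‖ ≤ C) :
    ∃ (P : PosFun) (η : HS P), (∀ a : ℝ →ᵇ ℂ, Φ a = ⟪η, ((toPre P a : PreH P) : HS P)⟫_ℂ) ∧
      ‖η‖ ≤ ‖toPre P 1‖ ∧ ‖toPre P 1‖ ^ 2 = C := by
  obtain ⟨P, hP, hP1⟩ := exists_posFun_norm Φ C hCpos hC
  refine ⟨P, ?_⟩
  have hbd : ∀ a : ℝ →ᵇ ℂ, ‖Φ a‖ ≤ ‖toPre P 1‖ * ‖toPre P a‖ := by
    intro a
    let m : ℝ →ᵇ ℂ := BoundedContinuousFunction.ofNormedAddCommGroup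
      (fun t => ((‖a t‖ : ℝ) : ℂ)) (by fun_prop) ‖a‖ (by
        intro t
        rw [Complex.norm_real, norm_norm]
        exact a.norm_coe_le_norm t)
    have hm : ∀ t, m t = ((‖a t‖ : ℝ) : ℂ) := fun t => rfl
    have h1 : ‖Φ a‖ ≤ (P.fn m).re := by
      rcases eq_or_ne (Φ a) 0 with h0 | h0
      · rw [h0, norm_zero]
        apply P.nonneg'
        intro t
        rw [hm, Complex.ofReal_re]
        exact norm_nonneg _
      · have hn : (‖Φ a‖ : ℂ) ≠ 0 := by simpa using h0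
        have h2 := hP m ((starRingEnd ℂ (Φ a) / (‖Φ a‖ : ℂ)) • a) (by
          intro t
          rw [hm, Complex.ofReal_re, BoundedContinuousFunction.coe_smul, norm_smul, norm_div,
            RCLike.norm_conj, Complex.norm_real, norm_norm, div_self (by simpa using h0), one_mul])
        rw [map_smul, smul_eq_mul, div_mul_eq_mul_div, Complex.conj_mul', sq,
          mul_div_assoc, div_self hn, mul_one, Complex.ofReal_re] at h2
        exact h2
    have h3 : P.fn m = ⟪toPre P 1, toPre P m⟫_ℂ := by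
      rw [inner_def]; simp
    calc ‖Φ a‖ ≤ (P.fn m).re := h1
      _ ≤ ‖P.fn m‖ := Complex.re_le_norm _
      _ ≤ ‖toPre P 1‖ * ‖toPre P m‖ := by rw [h3]; exact norm_inner_le_norm _ _
      _ ≤ ‖toPre P 1‖ * ‖toPre P a‖ := by
        apply mul_le_mul_of_nonneg_left _ (norm_nonneg _)
        apply norm_le_norm
        intro t
        simp only [ofPre_toPre, hm, Complex.norm_real, norm_norm, le_refl]
  let F : PreH P →L[ℂ] ℂ := LinearMap.mkContinuous
    (Φ.toLinearMap ∘ₗ (ofPre P).toLinearMap) (‖toPre P 1‖) (fun a => hbd (ofPre P a))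
  let F' : HS P →L[ℂ] ℂ := F.fromCompletion
  have hF' : ‖F'‖ ≤ ‖toPre P 1‖ := by
    refine ContinuousLinearMap.opNorm_le_bound _ (norm_nonneg _) fun v => ?_
    induction v using UniformSpace.Completion.induction_on with
    | hp =>
      exact isClosed_le (F'.continuous.norm) (continuous_const.mul continuous_norm)
    | ih a =>
      change ‖F.fromCompletion (a : HS P)‖ ≤ _
      rw [ContinuousLinearMap.fromCompletion_apply_coe, UniformSpace.Completion.norm_coe]
      exact hbd (ofPre P a)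
  refine ⟨(InnerProductSpace.toDual ℂ (HS P)).symm F', fun a => ?_, ?_, ?_⟩
  · rw [InnerProductSpace.toDual_symm_apply]
    change Φ a = F.fromCompletion _
    rw [ContinuousLinearMap.fromCompletion_apply_coe]
    rfl
  · rw [LinearIsometryEquiv.norm_map]
    exact hF'
  · rw [norm_sq, ← hP1]
    simp

section Core

variable {H : Type*} [NormedAddCommGroup H] [InnerProductSpace ℂ H] [CompleteSpace H]
  (U : ℝ → H →ₗᵢ[ℂ] H) (hU0 : ∀ v, U 0 v = v) (hUadd : ∀ x y v, U (x + y) v = U x (U y v)) (ξ : H)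

include hU0 hUadd in
/-- One-sided measurable extension in a unitary representation, with control of the norm. -/
theorem core_norm (η : H) (b : ℝ)
    (hη : AEMeasurable (fun x => ⟪η, U x ξ⟫_ℂ) (volume.restrict (Iio b))) :
    ∃ η' : H, (∀ x < b, ⟪η', U x ξ⟫_ℂ = ⟪η, U x ξ⟫_ℂ) ∧
      AEMeasurable (fun x => ⟪η', U x ξ⟫_ℂ) volume ∧ ‖η'‖ ≤ ‖η‖ := by
  refine ⟨Pr (fun x => U x ξ) univ η, ?_, ?_, ?_⟩
  · intro x hx
    have hw0 : η ∈ Nm (fun x => U x ξ) (Iio b) := hη
    set w := U (-x) (η - Pr (fun x => U x ξ) univ η) with hw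
    have hwmem : w ∈ Nm (fun x => U x ξ) (Iio (b + -x)) := by
      apply U_mem_Nm U hU0 hUadd
      apply Submodule.sub_mem _ hw0
      exact Nm_mono _ (subset_univ _) (Submodule.starProjection_apply_mem _ _)
    have hPw : Pr (fun x => U x ξ) univ w = 0 := by
      rw [hw, Pr_U_univ U hU0 hUadd, map_sub]
      have h7 : Pr (fun x => U x ξ) univ (Pr (fun x => U x ξ) univ η)
          = Pr (fun x => U x ξ) univ η :=
        Submodule.starProjection_eq_self_iff.2 (Submodule.starProjection_apply_mem _ _)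
      rw [h7, sub_self, map_zero]
    have hD := Dp_eq_zero U hU0 hUadd ξ (s := b + -x) (by linarith)
    have hcalc : ⟪w, ξ⟫_ℂ = 0 := by
      have e1 : Pr (fun x => U x ξ) (Iio (b + -x)) w = w :=
        Submodule.starProjection_eq_self_iff.2 hwmem
      calc ⟪w, ξ⟫_ℂ = ⟪Pr (fun x => U x ξ) (Iio (b + -x)) w, ξ⟫_ℂ := by rw [e1]
        _ = ⟪w, Pr (fun x => U x ξ) (Iio (b + -x)) ξ⟫_ℂ :=
            Submodule.inner_starProjection_left_eq_right _ _ _
        _ = ⟪w, Pr (fun x => U x ξ) univ ξ⟫_ℂ := by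
            rw [sub_eq_zero.1 hD]
        _ = ⟪Pr (fun x => U x ξ) univ w, ξ⟫_ℂ :=
            (Submodule.inner_starProjection_left_eq_right _ _ _).symm
        _ = 0 := by rw [hPw, inner_zero_left]
    have : ⟪η - Pr (fun x => U x ξ) univ η, U x ξ⟫_ℂ = 0 := by
      rw [inner_U_right U hU0 hUadd]; exact hcalc
    rw [inner_sub_left, sub_eq_zero] at this
    exact this.symm
  · have : Pr (fun x => U x ξ) univ η ∈ Nm (fun x => U x ξ) univ :=
      Submodule.starProjection_apply_mem _ _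
    rw [mem_Nm, Measure.restrict_univ] at this
    exact this
  · exact Submodule.norm_starProjection_apply_le _ _

end Core

/-- characteristic functions of functionals of norm at most `C`. -/
def RN (C : ℝ) (g : ℝ → ℂ) : Prop :=
  ∃ Φ : StrongDual ℂ (ℝ →ᵇ ℂ), ‖Φ‖ ≤ C ∧ ∀ x, Φ (ex x) = g x

lemma RN_inner (P : PosFun) (η : HS P) :
    RN (‖η‖ * ‖toPre P 1‖) (fun x => ⟪η, rep P x (cyc P)⟫_ℂ) := by
  let L : (ℝ →ᵇ ℂ) →L[ℂ] PreH P := LinearMap.mkContinuous (toPre P).toLinearMap ‖toPre P 1‖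
    (norm_toPre_le P)
  let L2 : PreH P →L[ℂ] HS P := UniformSpace.Completion.toComplL
  refine ⟨(innerSL ℂ η).comp (L2.comp L), ?_, fun x => ?_⟩
  · refine ContinuousLinearMap.opNorm_le_bound _ (by positivity) fun a => ?_
    change ‖⟪η, ((toPre P a : PreH P) : HS P)⟫_ℂ‖ ≤ _
    refine (norm_inner_le_norm _ _).trans ?_
    rw [UniformSpace.Completion.norm_coe, mul_assoc]
    exact mul_le_mul_of_nonneg_left (norm_toPre_le P a) (norm_nonneg _)
  · change _ = ⟪η, rep P x (cyc P)⟫_ℂ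
    rw [rep_cyc]
    rfl

/-- Extension from a half-line, without increasing the norm. -/
theorem one_sided_norm {g : ℝ → ℂ} {C : ℝ} (hg : RN C g) (b : ℝ)
    (hm : AEMeasurable g (volume.restrict (Iio b))) :
    ∃ g' : ℝ → ℂ, RN C g' ∧ (∀ x < b, g' x = g x) ∧ AEMeasurable g' volume := by
  obtain ⟨Φ, hΦC, hΦ⟩ := hg
  have hC0 : 0 ≤ C := (norm_nonneg _).trans hΦC
  rcases hC0.eq_or_lt with hC | hC
  · have h0 : ∀ a, Φ a = 0 := fun a => norm_le_zero_iff.1 ((Φ.le_opNorm a).trans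
      (mul_nonpos_of_nonpos_of_nonneg (hΦC.trans hC.ge) (norm_nonneg a)))
    refine ⟨fun _ => 0, ⟨0, by rw [norm_zero]; exact hC0, fun x => rfl⟩, fun x _ => ?_,
      aemeasurable_const⟩
    rw [← hΦ x, h0]
  obtain ⟨P, η, hη, hη1, hP1⟩ := exists_rep_norm Φ C hC hΦC
  have h1 : ∀ x, ⟪η, rep P x (cyc P)⟫_ℂ = g x := by
    intro x
    rw [rep_cyc, ← hη, hΦ]
  obtain ⟨η', h2, h3, h4⟩ := core_norm (rep P) (rep_zero P) (rep_add P) (cyc P) η b
    (by simpa only [h1] using hm)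
  obtain ⟨Φ', h5, h6⟩ := RN_inner P η'
  refine ⟨_, ⟨Φ', h5.trans ?_, h6⟩, fun x hx => by rw [h2 x hx, h1], h3⟩
  calc ‖η'‖ * ‖toPre P 1‖ ≤ ‖toPre P 1‖ * ‖toPre P 1‖ :=
        mul_le_mul_of_nonneg_right (h4.trans hη1) (norm_nonneg _)
    _ = C := by rw [← sq, hP1]

lemma RN.neg_comp {C : ℝ} {f : ℝ → ℂ} (hf : RN C f) : RN C (fun x => f (-x)) := by
  obtain ⟨Φ, hC, hΦ⟩ := hf
  let L : (ℝ →ᵇ ℂ) →L[ℂ] (ℝ →ᵇ ℂ) := LinearMap.mkContinuous
    { toFun := fun a => a.compContinuous ⟨fun t : ℝ => -t, continuous_neg⟩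
      map_add' := fun a b => by ext t; simp
      map_smul' := fun c a => by ext t; simp } 1 (by
        intro a
        rw [one_mul]
        rw [BoundedContinuousFunction.norm_le (norm_nonneg _)]
        intro t
        exact a.norm_coe_le_norm (-t))
  have hL : ‖L‖ ≤ 1 := LinearMap.mkContinuous_norm_le _ zero_le_one _
  refine ⟨Φ.comp L, ?_, fun x => ?_⟩
  · refine (ContinuousLinearMap.opNorm_comp_le _ _).trans ?_
    calc ‖Φ‖ * ‖L‖ ≤ C * 1 := mul_le_mul hC hL (norm_nonneg _) ((norm_nonneg _).trans hC)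
      _ = C := mul_one C
  · have : L (ex x) = ex (-x) := by
      ext t
      change ex x (-t) = ex (-x) t
      rw [ex_apply, ex_apply]
      congr 1
      push_cast
      ring
    rw [ContinuousLinearMap.comp_apply, this, hΦ]

theorem one_sided_right_norm {g : ℝ → ℂ} {C : ℝ} (hg : RN C g) (b : ℝ)
    (hm : AEMeasurable g (volume.restrict (Ioi b))) :
    ∃ g' : ℝ → ℂ, RN C g' ∧ (∀ x > b, g' x = g x) ∧ AEMeasurable g' volume := by
  have hm' : AEMeasurable (fun x => g (-x)) (volume.restrict (Iio (-b))) := by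
    have hmp : MeasurePreserving (fun x : ℝ => -x) (volume.restrict (Iio (-b)))
        (volume.restrict (Ioi b)) := by
      have := (Measure.measurePreserving_neg (volume : Measure ℝ)).restrict_preimage
        (s := Ioi b) measurableSet_Ioi
      have h2 : (fun x : ℝ => -x) ⁻¹' Ioi b = Iio (-b) := by
        ext x; simp
      rwa [h2] at this
    exact hm.comp_quasiMeasurePreserving hmp.quasiMeasurePreserving
  obtain ⟨g', h1, h2, h3⟩ := one_sided_norm hg.neg_comp (-b) hm'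
  refine ⟨fun x => g' (-x), h1.neg_comp, fun x hx => ?_, ?_⟩
  · have := h2 (-x) (by linarith)
    simpa using this
  · exact h3.comp_quasiMeasurePreserving
      (Measure.measurePreserving_neg (volume : Measure ℝ)).quasiMeasurePreserving

/-- the functional with characteristic function `f`, exponents in `S`, has norm at most `C`. -/
def BdC (S : Set ℝ) (C : ℝ) (f : ℝ → ℂ) : Prop :=
  ∀ s : Finset ℝ, (∀ x ∈ s, x ∈ S) → ∀ c : ℝ → ℂ, ∀ M : ℝ,
    (∀ t : ℝ, ‖∑ x ∈ s, c x * Complex.exp (Complex.I * (x : ℂ) * (t : ℂ))‖ ≤ M) →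
    ‖∑ x ∈ s, c x * f x‖ ≤ C * M

lemma factor_norm {V E : Type*} [AddCommGroup V] [Module ℂ V] [SeminormedAddCommGroup E]
    [NormedSpace ℂ E] (L : V →ₗ[ℂ] E) (F : V →ₗ[ℂ] ℂ) (C : ℝ) (hC : 0 ≤ C)
    (h : ∀ v, ‖F v‖ ≤ C * ‖L v‖) :
    ∃ Φ : StrongDual ℂ E, ‖Φ‖ ≤ C ∧ ∀ v, Φ (L v) = F v := by
  have hker : LinearMap.ker L ≤ LinearMap.ker F := by
    intro v hv
    rw [LinearMap.mem_ker] at *
    have := h v
    rw [hv, norm_zero, mul_zero] at this
    exact norm_le_zero_iff.1 this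
  let f : LinearMap.range L →ₗ[ℂ] ℂ :=
    ((LinearMap.ker L).liftQ F hker) ∘ₗ (L.quotKerEquivRange.symm).toLinearMap
  have hf : ∀ v, f ⟨L v, LinearMap.mem_range_self L v⟩ = F v := by
    intro v
    simp only [f, LinearMap.comp_apply, LinearEquiv.coe_coe]
    rw [LinearMap.quotKerEquivRange_symm_apply_image, Submodule.mkQ_apply, Submodule.liftQ_apply]
  have hf2 : ∀ y : LinearMap.range L, ‖f y‖ ≤ C * ‖y‖ := by
    rintro ⟨y, v, rfl⟩
    rw [hf]
    exact h v
  obtain ⟨Φ, hΦ, hn⟩ := exists_extension_norm_eq (LinearMap.range L) (f.mkContinuous C hf2)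
  refine ⟨Φ, ?_, fun v => ?_⟩
  · rw [hn]
    exact LinearMap.mkContinuous_norm_le _ hC _
  · have := hΦ ⟨L v, LinearMap.mem_range_self L v⟩
    rw [LinearMap.mkContinuous_apply, hf] at this
    exact this

lemma BdC.exists_functional {S : Set ℝ} {C : ℝ} {f : ℝ → ℂ} (hC0 : 0 ≤ C) (hC : BdC S C f) :
    ∃ Φ : StrongDual ℂ (ℝ →ᵇ ℂ), ‖Φ‖ ≤ C ∧ ∀ x ∈ S, Φ (ex x) = f x := by
  let L : Finsupp.supported ℂ ℂ S →ₗ[ℂ] (ℝ →ᵇ ℂ) :=
    (Finsupp.linearCombination ℂ ex) ∘ₗ (Finsupp.supported ℂ ℂ S).subtype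
  let F : Finsupp.supported ℂ ℂ S →ₗ[ℂ] ℂ :=
    (Finsupp.linearCombination ℂ f) ∘ₗ (Finsupp.supported ℂ ℂ S).subtype
  have hLF : ∀ v, ‖F v‖ ≤ C * ‖L v‖ := by
    intro v
    have h1 : F v = ∑ x ∈ v.1.support, v.1 x * f x := by
      simp [F, Finsupp.linearCombination_apply, Finsupp.sum]
    have h2 : L v = ∑ x ∈ v.1.support, v.1 x • ex x := by
      simp [L, Finsupp.linearCombination_apply, Finsupp.sum]
    rw [h1]
    apply hC
    · intro x hx
      exact (Finsupp.mem_supported ℂ v.1).1 v.2 hx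
    · intro t
      rw [← sum_ex_apply, ← h2]
      exact (L v).norm_coe_le_norm t
  obtain ⟨Φ, hΦC, hΦ⟩ := factor_norm L F C hC0 hLF
  refine ⟨Φ, hΦC, fun x hx => ?_⟩
  have hmem : Finsupp.single x (1 : ℂ) ∈ Finsupp.supported ℂ ℂ S :=
    Finsupp.single_mem_supported ℂ _ hx
  have := hΦ ⟨Finsupp.single x 1, hmem⟩
  simpa [L, F, Finsupp.linearCombination_single] using this

lemma RN.bdC {C : ℝ} {f : ℝ → ℂ} (h : RN C f) : BdC univ C f := by
  obtain ⟨Φ, hC, hΦ⟩ := h
  intro s _ c M hM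
  have h1 : ∑ x ∈ s, c x * f x = Φ (∑ x ∈ s, c x • ex x) := by
    rw [map_sum]
    refine Finset.sum_congr rfl fun x _ => ?_
    rw [map_smul, hΦ, smul_eq_mul]
  rw [h1]
  have hM0 : 0 ≤ M := (norm_nonneg _).trans (hM 0)
  have h2 : ‖∑ x ∈ s, c x • ex x‖ ≤ M := by
    rw [BoundedContinuousFunction.norm_le hM0]
    intro t
    rw [sum_ex_apply]
    exact hM t
  exact (Φ.le_opNorm _).trans (mul_le_mul hC h2 (norm_nonneg _) ((norm_nonneg _).trans hC))

lemma BdC.rn {C : ℝ} (hC : 0 ≤ C) {f : ℝ → ℂ} (h : BdC univ C f) : RN C f := by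
  obtain ⟨Φ, hΦC, hΦ⟩ := h.exists_functional hC
  exact ⟨Φ, hΦC, fun x => hΦ x (mem_univ x)⟩

lemma RN.add {C D : ℝ} {f g : ℝ → ℂ} (hf : RN C f) (hg : RN D g) :
    RN (C + D) (fun x => f x + g x) := by
  obtain ⟨Φ, hC, hΦ⟩ := hf
  obtain ⟨Ψ, hD, hΨ⟩ := hg
  exact ⟨Φ + Ψ, (norm_add_le _ _).trans (add_le_add hC hD), fun x => by simp [hΦ, hΨ]⟩

lemma RN.sub {C D : ℝ} {f g : ℝ → ℂ} (hf : RN C f) (hg : RN D g) :
    RN (C + D) (fun x => f x - g x) := by
  obtain ⟨Φ, hC, hΦ⟩ := hf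
  obtain ⟨Ψ, hD, hΨ⟩ := hg
  exact ⟨Φ - Ψ, (norm_sub_le _ _).trans (add_le_add hC hD), fun x => by simp [hΦ, hΨ]⟩

/-- the constant of a Schwartz multiplier -/
noncomputable def kc (χ : 𝓢(ℝ, ℂ)) : ℝ := ∫ v, ‖(𝓕⁻ χ : 𝓢(ℝ, ℂ)) v‖

lemma kc_nonneg (χ : 𝓢(ℝ, ℂ)) : 0 ≤ kc χ := integral_nonneg fun _ => norm_nonneg _

lemma RN.mul_schwartz {C : ℝ} {f : ℝ → ℂ} (hf : RN C f) (χ : 𝓢(ℝ, ℂ)) :
    RN (C * kc χ) (fun x => χ x * f x) := by
  have hC0 : 0 ≤ C := by
    obtain ⟨Φ, hC, -⟩ := hf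
    exact (norm_nonneg _).trans hC
  have hC := hf.bdC
  apply BdC.rn (mul_nonneg hC0 (kc_nonneg χ))
  unfold kc
  set k : 𝓢(ℝ, ℂ) := 𝓕⁻ χ with hk
  have hχ : ∀ x : ℝ, χ x = ∫ v : ℝ, Complex.exp (↑(-2 * Real.pi * v * x) * Complex.I) * k v := by
    intro x
    have h1 : 𝓕 k = χ := by rw [hk]; exact FourierTransform.fourier_fourierInv_eq χ
    have h2 : (𝓕 k : 𝓢(ℝ, ℂ)) x = 𝓕 (k : ℝ → ℂ) x := by
      rw [SchwartzMap.fourier_coe]
    rw [← h1, h2, Real.fourier_real_eq_integral_exp_smul]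
    rfl
  have hkint : Integrable (fun v => ‖k v‖) := (k.integrable (μ := volume)).norm
  intro s hs c M hM
  have hint : ∀ x : ℝ, Integrable
      (fun v : ℝ => Complex.exp (↑(-2 * Real.pi * v * x) * Complex.I) * k v) := by
    intro x
    refine (k.integrable (μ := volume)).bdd_mul (c := 1) ?_ (ae_of_all _ fun v => ?_)
    · exact Continuous.aestronglyMeasurable (by fun_prop)
    · rw [Complex.norm_exp_ofReal_mul_I]
  have h1 : ∑ x ∈ s, c x * (χ x * f x)
      = ∫ v : ℝ, k v * ∑ x ∈ s, (c x * Complex.exp (↑(-2 * Real.pi * v * x) * Complex.I)) * f x := by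
    have : ∀ v : ℝ, k v * ∑ x ∈ s, (c x * Complex.exp (↑(-2 * Real.pi * v * x) * Complex.I)) * f x
        = ∑ x ∈ s, (c x * f x) * (Complex.exp (↑(-2 * Real.pi * v * x) * Complex.I) * k v) := by
      intro v
      rw [Finset.mul_sum]
      refine Finset.sum_congr rfl fun x _ => ?_
      ring
    simp_rw [this]
    rw [integral_finsetSum _ (fun x _ => (hint x).const_mul _)]
    refine Finset.sum_congr rfl fun x _ => ?_
    rw [integral_const_mul, ← hχ]
    ring
  rw [h1]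
  have h2 : ∀ v : ℝ,
      ‖∑ x ∈ s, (c x * Complex.exp (↑(-2 * Real.pi * v * x) * Complex.I)) * f x‖ ≤ C * M := by
    intro v
    apply hC s hs (fun x => c x * Complex.exp (↑(-2 * Real.pi * v * x) * Complex.I)) M
    intro t
    have h3 := hM (t - 2 * Real.pi * v)
    convert h3 using 3 with x
    rw [mul_assoc, ← Complex.exp_add]
    congr 2
    push_cast
    ring
  calc ‖∫ v : ℝ, k v * ∑ x ∈ s, (c x * Complex.exp (↑(-2 * Real.pi * v * x) * Complex.I)) * f x‖
      ≤ ∫ v : ℝ, ‖k v‖ * (C * M) := by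
        refine norm_integral_le_of_norm_le (hkint.mul_const _) (ae_of_all _ fun v => ?_)
        rw [norm_mul]
        exact mul_le_mul_of_nonneg_left (h2 v) (norm_nonneg _)
    _ = C * (∫ v, ‖k v‖) * M := by
        rw [integral_mul_const]; ring

/-- extension from `(-1, 1)` with an absolute constant -/
theorem extension_one : ∃ K : ℝ, 0 ≤ K ∧ ∀ (f : ℝ → ℂ) (C : ℝ), 0 ≤ C →
    AEMeasurable f (volume.restrict (Ioo (-1) 1)) → BdC (Ioo (-1) 1) C f →
    ∃ g : ℝ → ℂ, (∀ x ∈ Ioo (-1 : ℝ) 1, g x = f x) ∧ AEMeasurable g volume ∧ RN (K * C) g := by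
  obtain ⟨χ, hχ1, hχ0⟩ := exists_cutoff 0 1 2 one_pos (by norm_num)
  obtain ⟨ψ, hψ1, hψ0⟩ := exists_cutoff 1 1 (3 / 2) one_pos (by norm_num)
  have hkχ := kc_nonneg χ
  have hkψ := kc_nonneg ψ
  refine ⟨kc χ * (1 + 2 * kc ψ), by positivity, fun f C hC hf hb => ?_⟩
  obtain ⟨Φ, hΦC, hΦ⟩ := hb.exists_functional hC
  let F : ℝ → ℂ := fun x => χ x * Φ (ex x)
  have hF : RN (C * kc χ) F := RN.mul_schwartz ⟨Φ, hΦC, fun _ => rfl⟩ χ
  have hFf : ∀ x ∈ Ioo (-1 : ℝ) 1, F x = f x := by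
    intro x hx
    simp only [F]
    rw [hχ1 x (by rw [sub_zero, abs_le]; exact ⟨hx.1.le, hx.2.le⟩), hΦ x hx, one_mul]
  have hFm : AEMeasurable F (volume.restrict (Ioo (-1) 1)) := by
    refine hf.congr ?_
    exact (ae_restrict_iff' measurableSet_Ioo).2 (ae_of_all _ fun x hx => (hFf x hx).symm)
  have hψm : AEMeasurable (fun x => ψ x) (volume.restrict (Ioo (-1) 1)) :=
    ψ.continuous.measurable.aemeasurable
  have hR : RN (C * kc χ * kc ψ) (fun x => ψ x * F x) := hF.mul_schwartz ψ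
  have hRm : AEMeasurable (fun x => ψ x * F x) (volume.restrict (Iio 1)) := by
    have hU : Iio (1 : ℝ) = Iic (-1) ∪ Ioo (-1) 1 := by
      ext x; simp only [mem_Iio, mem_union, mem_Iic, mem_Ioo]
      constructor
      · intro h
        rcases le_or_gt x (-1) with h1 | h1
        · exact Or.inl h1
        · exact Or.inr ⟨h1, h⟩
      · rintro (h | h)
        · linarith
        · exact h.2
    rw [hU, aemeasurable_union_iff]
    refine ⟨?_, hψm.mul hFm⟩
    refine (aemeasurable_const (b := (0 : ℂ))).congr ?_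
    refine (ae_restrict_iff' measurableSet_Iic).2 (ae_of_all _ fun x hx => ?_)
    rw [mem_Iic] at hx
    have h0 : ψ x = 0 := hψ0 x (by rw [abs_sub_comm, abs_of_pos (by linarith)]; linarith)
    change (0 : ℂ) = ψ x * F x
    rw [h0, zero_mul]
  have hL : RN (C * kc χ + C * kc χ * kc ψ) (fun x => F x - ψ x * F x) := hF.sub hR
  have hLm : AEMeasurable (fun x => F x - ψ x * F x) (volume.restrict (Ioi (-1))) := by
    have hU : Ioi (-1 : ℝ) = Ioo (-1) 1 ∪ Ici 1 := by
      ext x; simp only [mem_Ioi, mem_union, mem_Ici, mem_Ioo]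
      constructor
      · intro h
        rcases lt_or_ge x 1 with h1 | h1
        · exact Or.inl ⟨h, h1⟩
        · exact Or.inr h1
      · rintro (h | h)
        · exact h.1
        · linarith
    rw [hU, aemeasurable_union_iff]
    refine ⟨hFm.sub (hψm.mul hFm), ?_⟩
    refine (aemeasurable_const (b := (0 : ℂ))).congr ?_
    refine (ae_restrict_iff' measurableSet_Ici).2 (ae_of_all _ fun x hx => ?_)
    rw [mem_Ici] at hx
    rcases le_or_gt x 2 with h1 | h1
    · have h2 : ψ x = 1 := hψ1 x (by rw [abs_of_nonneg (by linarith)]; linarith)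
      change (0 : ℂ) = F x - ψ x * F x
      rw [h2]; simp
    · have : F x = 0 := by
        simp only [F]
        rw [hχ0 x (by rw [sub_zero, abs_of_pos (by linarith)]; linarith), zero_mul]
      change (0 : ℂ) = F x - ψ x * F x
      rw [this]; simp
  obtain ⟨g1, h11, h12, h13⟩ := one_sided_norm hR 1 hRm
  obtain ⟨g2, h21, h22, h23⟩ := one_sided_right_norm hL (-1) hLm
  refine ⟨fun x => g1 x + g2 x, fun x hx => ?_, h13.add h23, ?_⟩
  · change g1 x + g2 x = f x
    rw [h12 x hx.2, h22 x hx.1, ← hFf x hx]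
    ring
  · have h := h11.add h21
    have he : C * kc χ * kc ψ + (C * kc χ + C * kc χ * kc ψ) = kc χ * (1 + 2 * kc ψ) * C := by ring
    rw [he] at h
    exact h

/-! ### affine changes of variable -/

/-- affine change of variable in the norm bound -/
lemma BdC.comp_affine {S : Set ℝ} {C : ℝ} {f : ℝ → ℂ} (h : BdC S C f) (p q : ℝ) (hp : p ≠ 0) :
    BdC ((fun x => p * x + q) ⁻¹' S) C (fun x => f (p * x + q)) := by
  intro s hs c M hM
  have hinj : Function.Injective (fun x : ℝ => p * x + q) := by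
    intro x y hxy
    have : p * x = p * y := by simpa using hxy
    exact mul_left_cancel₀ hp this
  have hinv : ∀ x, (p * x + q - q) / p = x := by
    intro x
    field_simp
    ring
  have h1 : ∀ F : ℝ → ℂ, ∑ y ∈ s.image (fun x => p * x + q), c ((y - q) / p) * F y =
      ∑ x ∈ s, c x * F (p * x + q) := by
    intro F
    rw [Finset.sum_image fun x _ y _ hxy => hinj hxy]
    refine Finset.sum_congr rfl fun x _ => ?_
    simp only [hinv]
  have h2 := h (s.image fun x => p * x + q) (by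
    intro y hy
    obtain ⟨x, hx, rfl⟩ := Finset.mem_image.1 hy
    exact hs x hx) (fun y => c ((y - q) / p)) M (by
    intro t
    rw [h1 (fun y : ℝ => Complex.exp (Complex.I * (y : ℂ) * (t : ℂ)))]
    have h3 : ∑ x ∈ s, c x * Complex.exp (Complex.I * ((p * x + q : ℝ) : ℂ) * (t : ℂ)) =
        Complex.exp (Complex.I * (q : ℂ) * (t : ℂ)) *
          ∑ x ∈ s, c x * Complex.exp (Complex.I * (x : ℂ) * ((p * t : ℝ) : ℂ)) := by
      rw [Finset.mul_sum]
      refine Finset.sum_congr rfl fun x _ => ?_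
      rw [mul_left_comm, ← Complex.exp_add]
      congr 2
      push_cast
      ring
    rw [h3, norm_mul]
    have h4 : ‖Complex.exp (Complex.I * (q : ℂ) * (t : ℂ))‖ = 1 := norm_ex_apply q t
    rw [h4, one_mul]
    exact hM (p * t))
  rw [h1 f] at h2
  exact h2

lemma quasi_affine (p q : ℝ) (hp : p ≠ 0) :
    Measure.QuasiMeasurePreserving (fun x : ℝ => p * x + q) volume volume := by
  have h1 : Measure.QuasiMeasurePreserving (fun x : ℝ => p * x) volume volume := by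
    refine ⟨measurable_const_mul p, ?_⟩
    rw [Real.map_volume_mul_left hp]
    exact Measure.smul_absolutelyContinuous
  have h2 : Measure.QuasiMeasurePreserving (fun x : ℝ => x + q) volume volume :=
    (measurePreserving_add_right volume q).quasiMeasurePreserving
  exact h2.comp h1

lemma aemeasurable_comp_affine {S : Set ℝ} {f : ℝ → ℂ}
    (hf : AEMeasurable f (volume.restrict S)) (p q : ℝ) (hp : p ≠ 0) :
    AEMeasurable (fun x => f (p * x + q)) (volume.restrict ((fun x => p * x + q) ⁻¹' S)) := by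
  have h := (quasi_affine p q hp).restrict (s := (fun x => p * x + q) ⁻¹' S) (t := S)
    (mapsTo_preimage _ _)
  exact hf.comp_quasiMeasurePreserving h

theorem extension_Ioo : ∃ K : ℝ, 0 ≤ K ∧ ∀ a b : ℝ, a < b → ∀ (f : ℝ → ℂ) (C : ℝ), 0 ≤ C →
    AEMeasurable f (volume.restrict (Ioo a b)) → BdC (Ioo a b) C f →
    ∃ g : ℝ → ℂ, (∀ x ∈ Ioo a b, g x = f x) ∧ AEMeasurable g volume ∧ BdC univ (K * C) g := by
  obtain ⟨K, hK, hext⟩ := extension_one
  refine ⟨K, hK, fun a b hab f C hC hf hb => ?_⟩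
  set p : ℝ := (b - a) / 2 with hpdef
  set q : ℝ := (a + b) / 2 with hqdef
  have hp : 0 < p := by rw [hpdef]; linarith
  have hpre : (fun x : ℝ => p * x + q) ⁻¹' Ioo a b = Ioo (-1) 1 := by
    ext x
    simp only [mem_preimage, mem_Ioo]
    constructor
    · rintro ⟨h1, h2⟩
      constructor
      · have h3 : p * (-1) < p * x := by rw [hpdef, hqdef] at *; linarith
        exact lt_of_mul_lt_mul_left h3 hp.le
      · have h3 : p * x < p * 1 := by rw [hpdef, hqdef] at *; linarith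
        exact lt_of_mul_lt_mul_left h3 hp.le
    · rintro ⟨h1, h2⟩
      have h3 : p * (-1) < p * x := mul_lt_mul_of_pos_left h1 hp
      have h4 : p * x < p * 1 := mul_lt_mul_of_pos_left h2 hp
      rw [hpdef, hqdef] at *
      constructor <;> linarith
  have hf' := aemeasurable_comp_affine hf p q hp.ne'
  have hb' := hb.comp_affine p q hp.ne'
  rw [hpre] at hf' hb'
  obtain ⟨g, hg1, hg2, hg3⟩ := hext _ C hC hf' hb'
  have hinv : ∀ y : ℝ, p * (p⁻¹ * y + -(p⁻¹ * q)) + q = y := by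
    intro y
    field_simp
    ring
  refine ⟨fun y => g (p⁻¹ * y + -(p⁻¹ * q)), fun y hy => ?_, ?_, ?_⟩
  · have hmem : p⁻¹ * y + -(p⁻¹ * q) ∈ Ioo (-1 : ℝ) 1 := by
      rw [← hpre, mem_preimage, hinv]
      exact hy
    change g (p⁻¹ * y + -(p⁻¹ * q)) = f y
    rw [hg1 _ hmem, hinv]
  · exact hg2.comp_quasiMeasurePreserving (quasi_affine _ _ (inv_ne_zero hp.ne'))
  · have h := hg3.bdC.comp_affine p⁻¹ (-(p⁻¹ * q)) (inv_ne_zero hp.ne')
    rw [preimage_univ] at h
    exact h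

theorem extension_Iio (b : ℝ) (f : ℝ → ℂ) (C : ℝ) (hC : 0 ≤ C)
    (hf : AEMeasurable f (volume.restrict (Iio b))) (hb : BdC (Iio b) C f) :
    ∃ g : ℝ → ℂ, (∀ x ∈ Iio b, g x = f x) ∧ AEMeasurable g volume ∧ BdC univ C g := by
  obtain ⟨Φ, hΦC, hΦ⟩ := hb.exists_functional hC
  have hm : AEMeasurable (fun x => Φ (ex x)) (volume.restrict (Iio b)) := by
    refine hf.congr ?_
    exact (ae_restrict_iff' measurableSet_Iio).2 (ae_of_all _ fun x hx => (hΦ x hx).symm)
  obtain ⟨g, h1, h2, h3⟩ := one_sided_norm ⟨Φ, hΦC, fun _ => rfl⟩ b hm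
  exact ⟨g, fun x hx => (h2 x hx).trans (hΦ x hx), h3, h1.bdC⟩

theorem extension_Ioi (b : ℝ) (f : ℝ → ℂ) (C : ℝ) (hC : 0 ≤ C)
    (hf : AEMeasurable f (volume.restrict (Ioi b))) (hb : BdC (Ioi b) C f) :
    ∃ g : ℝ → ℂ, (∀ x ∈ Ioi b, g x = f x) ∧ AEMeasurable g volume ∧ BdC univ C g := by
  obtain ⟨Φ, hΦC, hΦ⟩ := hb.exists_functional hC
  have hm : AEMeasurable (fun x => Φ (ex x)) (volume.restrict (Ioi b)) := by
    refine hf.congr ?_
    exact (ae_restrict_iff' measurableSet_Ioi).2 (ae_of_all _ fun x hx => (hΦ x hx).symm)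
  obtain ⟨g, h1, h2, h3⟩ := one_sided_right_norm ⟨Φ, hΦC, fun _ => rfl⟩ b hm
  exact ⟨g, fun x hx => (h2 x hx).trans (hΦ x hx), h3, h1.bdC⟩

end Pool.Agent.MP_8048c5_an.Strong
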